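import Mathlib

set_option autoImplicit false

namespace Pool.Agent.Helper559.Kn

open Finset

/-- Alternating sums of nonnegative antitone sequences. -/
lemma alt_bounds (K : ℕ) : ∀ b : ℕ → ℝ, (∀ q, 0 ≤ b q) → (∀ q, b (q + 1) ≤ b q) →
    0 ≤ ∑ q ∈ range K, (-1 : ℝ) ^ q * b q ∧ ∑ q ∈ range K, (-1 : ℝ) ^ q * b q ≤ b 0 := by
  induction K with
  | zero => intro b hb _; simpa using hb 0
  | succ K ih =>
    intro b hb hdec
    have h := ih (fun q => b (q + 1)) (fun q => hb (q + 1)) (fun q => hdec (q + 1))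
    have e : ∑ q ∈ range (K + 1), (-1 : ℝ) ^ q * b q =
        b 0 - ∑ q ∈ range K, (-1 : ℝ) ^ q * b (q + 1) := by
      rw [Finset.sum_range_succ', Finset.sum_congr rfl (fun q _ => by
        show (-1 : ℝ) ^ (q + 1) * b (q + 1) = -((-1 : ℝ) ^ q * b (q + 1)); ring),
        Finset.sum_neg_distrib]
      ring
    rw [e]
    have h1 := hdec 0
    constructor
    · have := h.2; simp only [zero_add] at this h1; linarith
    · have := h.1; linarith

/-- The two-term lower bound. -/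
lemma alt_lower (K : ℕ) (hK : 2 ≤ K) (b : ℕ → ℝ) (hb : ∀ q, 0 ≤ b q) (hdec : ∀ q, b (q + 1) ≤ b q) :
    b 0 - b 1 ≤ ∑ q ∈ range K, (-1 : ℝ) ^ q * b q := by
  obtain ⟨L, rfl⟩ : ∃ L, K = L + 1 := ⟨K - 1, by omega⟩
  have h := alt_bounds L (fun q => b (q + 1)) (fun q => hb (q + 1)) (fun q => hdec (q + 1))
  have e : ∑ q ∈ range (L + 1), (-1 : ℝ) ^ q * b q =
      b 0 - ∑ q ∈ range L, (-1 : ℝ) ^ q * b (q + 1) := by
    rw [Finset.sum_range_succ', Finset.sum_congr rfl (fun q _ => by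
      show (-1 : ℝ) ^ (q + 1) * b (q + 1) = -((-1 : ℝ) ^ q * b (q + 1)); ring),
      Finset.sum_neg_distrib]
    ring
  rw [e]
  have := h.2
  simp only [zero_add] at this
  linarith

/-- Cosine-like sum attached to a sequence of factors. -/
noncomputable def Cs (K : ℕ) (α : ℕ → ℝ) (X : ℝ) : ℝ :=
  ∑ q ∈ range K, (-1 : ℝ) ^ q * (X ^ q * (∏ l ∈ range q, α l) / ((2 * q).factorial : ℝ))

/-- Sine-like sum attached to a sequence of factors. -/
noncomputable def Sn (K : ℕ) (α : ℕ → ℝ) (X : ℝ) : ℝ :=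
  ∑ q ∈ range K, (-1 : ℝ) ^ q * (X ^ q * (∏ l ∈ range q, α l) / ((2 * q + 1).factorial : ℝ))

lemma fac2 (q : ℕ) : (((2 * (q + 1)).factorial : ℕ) : ℝ) =
    (2 * q + 1) * (2 * q + 2) * ((2 * q).factorial : ℝ) := by
  rw [show 2 * (q + 1) = (2 * q + 1) + 1 by ring, Nat.factorial_succ, Nat.factorial_succ]
  push_cast; ring

lemma fac3 (q : ℕ) : (((2 * (q + 1) + 1).factorial : ℕ) : ℝ) =
    (2 * q + 2) * (2 * q + 3) * ((2 * q + 1).factorial : ℝ) := by
  rw [show 2 * (q + 1) + 1 = (2 * q + 2) + 1 by ring, Nat.factorial_succ,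
    show 2 * q + 2 = (2 * q + 1) + 1 by ring, Nat.factorial_succ]
  push_cast; ring

theorem Cs_lt (K : ℕ) (hK : 3 ≤ K) (α β : ℕ → ℝ) (d B X : ℝ) (hα : ∀ l, 0 ≤ α l)
    (hαβ : ∀ l, α l ≤ β l) (hB : ∀ l, β l ≤ B) (hd : β 0 = α 0 + d) (hdpos : 0 < d)
    (hdiff : ∀ l : ℕ, β l - α l ≤ (1 + (l : ℝ) / 3) * d) (hX : 0 < X) (hXB : X * B ≤ 5) :
    Cs K β X < Cs K α X := by
  set a : ℕ → ℝ := fun q => ∏ l ∈ range q, α l with ha
  set b : ℕ → ℝ := fun q => ∏ l ∈ range q, β l with hb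
  have ha0 : a 0 = 1 := by simp [ha]
  have hb0 : b 0 = 1 := by simp [hb]
  have hasucc : ∀ q, a (q + 1) = a q * α q := fun q => by simp [ha, Finset.prod_range_succ]
  have hbsucc : ∀ q, b (q + 1) = b q * β q := fun q => by simp [hb, Finset.prod_range_succ]
  have hann : ∀ q, 0 ≤ a q := fun q => Finset.prod_nonneg (fun l _ => hα l)
  have hB0 : 0 ≤ B := (hα 0).trans ((hαβ 0).trans (hB 0))
  have hDnn : ∀ q, 0 ≤ b q - a q := by
    intro q
    induction q with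
    | zero => rw [ha0, hb0]; norm_num
    | succ q ih =>
      rw [hasucc, hbsucc]
      have h1 : a q * α q ≤ a q * β q := mul_le_mul_of_nonneg_left (hαβ q) (hann q)
      have h2 : a q * β q ≤ b q * β q := mul_le_mul_of_nonneg_right (by linarith) ((hα q).trans (hαβ q))
      linarith
  have hkey : ∀ q, d * a (q + 1) ≤ B * (b (q + 1) - a (q + 1)) := by
    intro q
    induction q with
    | zero =>
      rw [hasucc, hbsucc, ha0, hb0, hd]
      have : α 0 ≤ B := (hαβ 0).trans (hB 0)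
      have : d * α 0 ≤ d * B := mul_le_mul_of_nonneg_left this hdpos.le
      simp only [one_mul]
      linarith
    | succ q ih =>
      rw [hasucc (q + 1), hbsucc (q + 1)]
      have h1 : d * a (q + 1) * α (q + 1) ≤ B * (b (q + 1) - a (q + 1)) * α (q + 1) :=
        mul_le_mul_of_nonneg_right ih (hα _)
      have h2 : (b (q + 1) - a (q + 1)) * α (q + 1) ≤ b (q + 1) * β (q + 1) - a (q + 1) * α (q + 1) := by
        have h3 : (b (q + 1)) * α (q + 1) ≤ b (q + 1) * β (q + 1) := by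
          apply mul_le_mul_of_nonneg_left (hαβ _)
          have := hDnn (q + 1); have := hann (q + 1); linarith
        linarith
      have h4 := mul_le_mul_of_nonneg_left h2 hB0
      calc d * (a (q + 1) * α (q + 1)) = d * a (q + 1) * α (q + 1) := by ring
        _ ≤ B * (b (q + 1) - a (q + 1)) * α (q + 1) := h1
        _ = B * ((b (q + 1) - a (q + 1)) * α (q + 1)) := by ring
        _ ≤ _ := h4
  have hstep : ∀ q : ℕ, b (q + 2) - a (q + 2) ≤
      (b (q + 1) - a (q + 1)) * (B * (2 + ((q : ℝ) + 1) / 3)) := by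
    intro q
    have e : b (q + 2) - a (q + 2) = (b (q + 1) - a (q + 1)) * β (q + 1) +
        a (q + 1) * (β (q + 1) - α (q + 1)) := by
      rw [hasucc (q + 1), hbsucc (q + 1)]; ring
    rw [e]
    have h1 : (b (q + 1) - a (q + 1)) * β (q + 1) ≤ (b (q + 1) - a (q + 1)) * B :=
      mul_le_mul_of_nonneg_left (hB _) (hDnn _)
    have h2 : a (q + 1) * (β (q + 1) - α (q + 1)) ≤ a (q + 1) * ((1 + ((q : ℝ) + 1) / 3) * d) := by
      apply mul_le_mul_of_nonneg_left _ (hann _)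
      have := hdiff (q + 1)
      push_cast at this
      exact this
    have h3 : a (q + 1) * ((1 + ((q : ℝ) + 1) / 3) * d) ≤
        (1 + ((q : ℝ) + 1) / 3) * (B * (b (q + 1) - a (q + 1))) := by
      have := mul_le_mul_of_nonneg_left (hkey q) (show (0 : ℝ) ≤ 1 + ((q : ℝ) + 1) / 3 by positivity)
      calc a (q + 1) * ((1 + ((q : ℝ) + 1) / 3) * d) = (1 + ((q : ℝ) + 1) / 3) * (d * a (q + 1)) := by ring
        _ ≤ _ := this
    calc _ ≤ (b (q + 1) - a (q + 1)) * B + (1 + ((q : ℝ) + 1) / 3) * (B * (b (q + 1) - a (q + 1))) := by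
          linarith
      _ = _ := by ring
  set Δ : ℕ → ℝ := fun q => X ^ (q + 1) * (b (q + 1) - a (q + 1)) / ((2 * (q + 1)).factorial : ℝ) with hΔ
  have hΔnn : ∀ q, 0 ≤ Δ q := fun q => by
    rw [hΔ]
    have := hDnn (q + 1)
    positivity
  have hratio : ∀ q : ℕ, Δ (q + 1) ≤ Δ q * ((5 * (2 + ((q : ℝ) + 1) / 3)) /
      ((2 * ((q : ℝ) + 1) + 1) * (2 * ((q : ℝ) + 1) + 2))) := by
    intro q
    simp only [hΔ]
    rw [fac2 (q + 1)]
    have hf : (0 : ℝ) < ((2 * (q + 1)).factorial : ℝ) := by positivity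
    have h1 : X ^ (q + 1 + 1) * (b (q + 1 + 1) - a (q + 1 + 1)) ≤
        X ^ (q + 1) * (b (q + 1) - a (q + 1)) * (5 * (2 + ((q : ℝ) + 1) / 3)) := by
      have h2 := mul_le_mul_of_nonneg_left (hstep q) (show 0 ≤ X ^ (q + 1 + 1) by positivity)
      have h3 : X ^ (q + 1 + 1) * ((b (q + 1) - a (q + 1)) * (B * (2 + ((q : ℝ) + 1) / 3))) =
          (X ^ (q + 1) * (b (q + 1) - a (q + 1)) * (2 + ((q : ℝ) + 1) / 3)) * (X * B) := by ring
      have h4 : (X ^ (q + 1) * (b (q + 1) - a (q + 1)) * (2 + ((q : ℝ) + 1) / 3)) * (X * B) ≤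
          (X ^ (q + 1) * (b (q + 1) - a (q + 1)) * (2 + ((q : ℝ) + 1) / 3)) * 5 := by
        apply mul_le_mul_of_nonneg_left hXB
        have := hDnn (q + 1)
        positivity
      linarith
    rw [div_mul_div_comm, div_le_div_iff₀ (by positivity) (by positivity)]
    have h5 : (0 : ℝ) < (2 * ((q : ℝ) + 1) + 1) * (2 * ((q : ℝ) + 1) + 2) := by positivity
    push_cast
    have h6 := mul_le_mul_of_nonneg_right h1
      (show (0 : ℝ) ≤ ((2 * (q + 1)).factorial : ℝ) * ((2 * ((q : ℝ) + 1) + 1) * (2 * ((q : ℝ) + 1) + 2)) by positivity)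
    calc _ ≤ X ^ (q + 1) * (b (q + 1) - a (q + 1)) * (5 * (2 + ((q : ℝ) + 1) / 3)) *
          (((2 * (q + 1)).factorial : ℝ) * ((2 * ((q : ℝ) + 1) + 1) * (2 * ((q : ℝ) + 1) + 2))) := h6
      _ = _ := by ring
  have hfac : ∀ q : ℕ, (5 * (2 + ((q : ℝ) + 1) / 3)) /
      ((2 * ((q : ℝ) + 1) + 1) * (2 * ((q : ℝ) + 1) + 2)) ≤ 35 / 36 := by
    intro q
    rw [div_le_div_iff₀ (by positivity) (by norm_num)]
    have : (0 : ℝ) ≤ q := by positivity
    nlinarith
  have hdec : ∀ q, Δ (q + 1) ≤ Δ q := by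
    intro q
    have h1 := mul_le_mul_of_nonneg_left (hfac q) (hΔnn q)
    have h2 := hratio q
    have h3 := hΔnn q
    linarith
  have hΔ0 : 0 < Δ 0 := by
    simp only [hΔ, zero_add, hasucc, hbsucc, ha0, hb0, hd]
    have : 0 < 1 * (α 0 + d) - 1 * α 0 := by linarith
    positivity
  have hΔ01 : Δ 1 < Δ 0 := by
    have h1 := mul_le_mul_of_nonneg_left (hfac 0) (hΔnn 0)
    have h2 := hratio 0
    rw [zero_add] at h2
    linarith
  have hdiffsum : Cs K α X - Cs K β X = ∑ q ∈ range (K - 1), (-1 : ℝ) ^ q * Δ q := by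
    rw [Cs, Cs, ← Finset.sum_sub_distrib]
    obtain ⟨L, rfl⟩ : ∃ L, K = L + 1 := ⟨K - 1, by omega⟩
    rw [Nat.add_sub_cancel, Finset.sum_range_succ']
    have e0 : (-1 : ℝ) ^ 0 * (X ^ 0 * ∏ l ∈ range 0, α l) / ((2 * 0).factorial : ℝ) -
        (-1 : ℝ) ^ 0 * (X ^ 0 * ∏ l ∈ range 0, β l) / ((2 * 0).factorial : ℝ) = 0 := by simp
    have e1 : ((-1 : ℝ) ^ 0 * (X ^ 0 * (∏ l ∈ range 0, α l) / ((2 * 0).factorial : ℝ)) -
        (-1 : ℝ) ^ 0 * (X ^ 0 * (∏ l ∈ range 0, β l) / ((2 * 0).factorial : ℝ))) = 0 := by simp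
    rw [e1, add_zero]
    apply Finset.sum_congr rfl
    intro q _
    simp only [hΔ, ha, hb]
    ring
  have hfin := alt_lower (K - 1) (by omega) Δ hΔnn hdec
  rw [← hdiffsum] at hfin
  linarith

lemma prod_antitone_aux (α : ℕ → ℝ) (hα : ∀ l, 0 ≤ α l) (q : ℕ) : 0 ≤ ∏ l ∈ range q, α l :=
  Finset.prod_nonneg (fun l _ => hα l)

theorem Sn_pos (K : ℕ) (hK : 2 ≤ K) (α : ℕ → ℝ) (B X : ℝ) (hα : ∀ l, 0 ≤ α l)
    (hB : ∀ l, α l ≤ B) (hX : 0 ≤ X) (hXB : X * B ≤ 5) : 0 < Sn K α X := by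
  set T : ℕ → ℝ := fun q => X ^ q * (∏ l ∈ range q, α l) / ((2 * q + 1).factorial : ℝ) with hT
  have hTnn : ∀ q, 0 ≤ T q := fun q => by
    rw [hT]
    have := prod_antitone_aux α hα q
    positivity
  have hratio : ∀ q : ℕ, T (q + 1) ≤ T q * (5 / 6) := by
    intro q
    simp only [hT]
    rw [fac3 q, Finset.prod_range_succ]
    have hp := prod_antitone_aux α hα q
    have h1 : X ^ (q + 1) * ((∏ l ∈ range q, α l) * α q) ≤ X ^ q * (∏ l ∈ range q, α l) * 5 := by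
      have h2 : X * α q ≤ 5 := (mul_le_mul_of_nonneg_left (hB q) hX).trans hXB
      calc X ^ (q + 1) * ((∏ l ∈ range q, α l) * α q) = (X ^ q * (∏ l ∈ range q, α l)) * (X * α q) := by ring
        _ ≤ _ := mul_le_mul_of_nonneg_left h2 (by positivity)
    rw [div_mul_div_comm, div_le_div_iff₀ (by positivity) (by positivity)]
    have hf : (0 : ℝ) < ((2 * q + 1).factorial : ℝ) := by positivity
    have h3 := mul_le_mul_of_nonneg_right h1 (show (0 : ℝ) ≤ ((2 * q + 1).factorial : ℝ) * 6 by positivity)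
    have h4 : X ^ q * (∏ l ∈ range q, α l) * 5 * (((2 * q + 1).factorial : ℝ) * 6) ≤
        X ^ q * (∏ l ∈ range q, α l) * 5 * ((2 * q + 2) * (2 * q + 3) * ((2 * q + 1).factorial : ℝ)) := by
      apply mul_le_mul_of_nonneg_left _ (by positivity)
      have : (6 : ℝ) ≤ (2 * q + 2) * (2 * q + 3) := by
        have : (0 : ℝ) ≤ q := by positivity
        nlinarith
      nlinarith
    linarith
  have hdec : ∀ q, T (q + 1) ≤ T q := fun q => by
    have := hratio q; have := hTnn q; linarith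
  have h := alt_lower K hK T hTnn hdec
  have h0 : T 0 = 1 := by simp [hT]
  have h1 : T 1 ≤ 5 / 6 := by have := hratio 0; rw [h0] at this; simpa using this
  have e : Sn K α X = ∑ q ∈ range K, (-1 : ℝ) ^ q * T q := rfl
  rw [e]
  linarith

theorem Cs_upper (K : ℕ) (hK : 3 ≤ K) (α : ℕ → ℝ) (B X : ℝ) (hα : ∀ l, 0 ≤ α l)
    (hB : ∀ l, α l ≤ B) (hX : 0 ≤ X) (hXB : X * B ≤ 5) :
    Cs K α X ≤ 1 - X * α 0 / 2 + X ^ 2 * (α 0 * α 1) / 24 := by
  set T : ℕ → ℝ := fun q => X ^ (q + 1) * (∏ l ∈ range (q + 1), α l) / ((2 * (q + 1)).factorial : ℝ) with hT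
  have hTnn : ∀ q, 0 ≤ T q := fun q => by
    rw [hT]
    have := prod_antitone_aux α hα (q + 1)
    positivity
  have hdec : ∀ q : ℕ, T (q + 1) ≤ T q := by
    intro q
    simp only [hT]
    rw [fac2 (q + 1), Finset.prod_range_succ]
    have hp := prod_antitone_aux α hα (q + 1)
    have h1 : X ^ (q + 1 + 1) * ((∏ l ∈ range (q + 1), α l) * α (q + 1)) ≤
        X ^ (q + 1) * (∏ l ∈ range (q + 1), α l) * 5 := by
      have h2 : X * α (q + 1) ≤ 5 := (mul_le_mul_of_nonneg_left (hB (q + 1)) hX).trans hXB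
      calc X ^ (q + 1 + 1) * ((∏ l ∈ range (q + 1), α l) * α (q + 1)) =
          (X ^ (q + 1) * (∏ l ∈ range (q + 1), α l)) * (X * α (q + 1)) := by ring
        _ ≤ _ := mul_le_mul_of_nonneg_left h2 (by positivity)
    rw [div_le_div_iff₀ (by positivity) (by positivity)]
    have h3 := mul_le_mul_of_nonneg_right h1 (show (0 : ℝ) ≤ ((2 * (q + 1)).factorial : ℝ) by positivity)
    have h4 : X ^ (q + 1) * (∏ l ∈ range (q + 1), α l) * 5 * ((2 * (q + 1)).factorial : ℝ) ≤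
        X ^ (q + 1) * (∏ l ∈ range (q + 1), α l) *
          ((2 * ((q + 1 : ℕ) : ℝ) + 1) * (2 * ((q + 1 : ℕ) : ℝ) + 2) * ((2 * (q + 1)).factorial : ℝ)) := by
      rw [mul_assoc]
      apply mul_le_mul_of_nonneg_left _ (by positivity)
      have : (5 : ℝ) ≤ (2 * ((q + 1 : ℕ) : ℝ) + 1) * (2 * ((q + 1 : ℕ) : ℝ) + 2) := by
        push_cast
        have : (0 : ℝ) ≤ q := by positivity
        nlinarith
      exact mul_le_mul_of_nonneg_right this (by positivity)
    linarith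
  have h := alt_lower (K - 1) (by omega) T hTnn hdec
  have e : Cs K α X = 1 - ∑ q ∈ range (K - 1), (-1 : ℝ) ^ q * T q := by
    obtain ⟨L, rfl⟩ : ∃ L, K = L + 1 := ⟨K - 1, by omega⟩
    rw [Nat.add_sub_cancel, Cs, Finset.sum_range_succ']
    simp only [hT]
    have e0 : ((-1 : ℝ) ^ 0 * (X ^ 0 * (∏ l ∈ range 0, α l) / ((2 * 0).factorial : ℝ))) = 1 := by simp
    rw [e0, Finset.sum_congr rfl (fun q _ => by
      show (-1 : ℝ) ^ (q + 1) * (X ^ (q + 1) * (∏ l ∈ range (q + 1), α l) / ((2 * (q + 1)).factorial : ℝ)) =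
        -((-1 : ℝ) ^ q * (X ^ (q + 1) * (∏ l ∈ range (q + 1), α l) / ((2 * (q + 1)).factorial : ℝ))); ring),
      Finset.sum_neg_distrib]
    ring
  have t0 : T 0 = X * α 0 / 2 := by simp [hT, Nat.factorial]
  have t1 : T 1 = X ^ 2 * (α 0 * α 1) / 24 := by
    simp only [hT, Finset.prod_range_succ, Finset.prod_range_zero]
    norm_num [Nat.factorial]
  rw [e]
  rw [t0, t1] at h
  linarith

end Pool.Agent.Helper559.Kn
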