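import Mathlib

set_option autoImplicit false
set_option linter.unusedSectionVars false

namespace Pool.Agent.Helper559.Kn

open Finset Polynomial

/-- Evaluation of the quadratic with coefficient vector `v`. -/
def ev (v : Fin 3 → ℂ) (z : ℂ) : ℂ := v 0 + v 1 * z + v 2 * z ^ 2

/-- Evaluation as a continuous linear map. -/
noncomputable def evL (z : ℂ) : (Fin 3 → ℂ) →L[ℂ] ℂ :=
  ContinuousLinearMap.proj 0 + z • ContinuousLinearMap.proj 1 + (z ^ 2) • ContinuousLinearMap.proj 2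

lemma evL_apply (z : ℂ) (v : Fin 3 → ℂ) : evL z v = ev v z := by
  simp [evL, ev]; ring

/-- The polynomial with coefficient vector `v`. -/
noncomputable def pv (v : Fin 3 → ℂ) : ℂ[X] := C (v 0) + C (v 1) * X + C (v 2) * X ^ 2

lemma pv_eval (v : Fin 3 → ℂ) (z : ℂ) : (pv v).eval z = ev v z := by
  simp [pv, ev]

lemma pv_natDegree (v : Fin 3 → ℂ) : (pv v).natDegree ≤ 2 := by
  unfold pv
  compute_degree

section
variable {ι : Type} [Fintype ι] [DecidableEq ι] (n : ℕ)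

/-- The power sum map in terms of values at `0, 1, ..., 2n`. -/
noncomputable def G (p : ι → Fin 3 → ℂ) (l : Fin (2 * n + 1)) : ℂ :=
  ∑ i, (ev (p i) ((l : ℕ) : ℂ)) ^ n

/-- Its derivative. -/
noncomputable def G' (p : ι → Fin 3 → ℂ) : (ι → Fin 3 → ℂ) →L[ℂ] (Fin (2 * n + 1) → ℂ) :=
  ContinuousLinearMap.pi fun l => ∑ i, (n • (ev (p i) ((l : ℕ) : ℂ)) ^ (n - 1)) •
    ((evL ((l : ℕ) : ℂ)).comp (ContinuousLinearMap.proj i))

lemma G_deriv (p : ι → Fin 3 → ℂ) : HasStrictFDerivAt (G (ι := ι) n) (G' n p) p := by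
  unfold G'
  apply hasStrictFDerivAt_pi.2
  intro l
  unfold G
  apply HasStrictFDerivAt.fun_sum
  intro i _
  have h1 : HasStrictFDerivAt (fun q : ι → Fin 3 → ℂ => ev (q i) ((l : ℕ) : ℂ))
      ((evL ((l : ℕ) : ℂ)).comp (ContinuousLinearMap.proj i)) p := by
    have h2 := ((evL ((l : ℕ) : ℂ)).comp
      (ContinuousLinearMap.proj (R := ℂ) (φ := fun _ : ι => Fin 3 → ℂ) i)).hasStrictFDerivAt (x := p)
    refine h2.congr_of_eventuallyEq ?_
    filter_upwards with q
    simp [evL_apply]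
  exact h1.pow n

lemma G'_apply (p v : ι → Fin 3 → ℂ) (l : Fin (2 * n + 1)) :
    G' n p v l = ∑ i, (n : ℂ) * (ev (p i) ((l : ℕ) : ℂ)) ^ (n - 1) * ev (v i) ((l : ℕ) : ℂ) := by
  simp [G', evL_apply]

theorem open_lemma (hn : 1 ≤ n) (p0 : ι → Fin 3 → ℂ) (h0 : ∀ z : ℂ, ∑ i, (ev (p0 i) z) ^ n = 0)
    (hsurj : ∀ c : Fin (2 * n + 1) → ℂ, (∀ i, ∀ v : Fin 3 → ℂ,
      ∑ l, c l * ((ev (p0 i) ((l : ℕ) : ℂ)) ^ (n - 1) * ev v ((l : ℕ) : ℂ)) = 0) → c = 0) :
    ∃ p : ι → Fin 3 → ℂ, ∀ z : ℂ, ∑ i, (ev (p i) z) ^ n = z := by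
  have hnC : (n : ℂ) ≠ 0 := by
    have : n ≠ 0 := by omega
    exact_mod_cast this
  -- surjectivity
  have hrange : ((G' n p0 : (ι → Fin 3 → ℂ) →L[ℂ] (Fin (2 * n + 1) → ℂ)) :
      (ι → Fin 3 → ℂ) →ₗ[ℂ] (Fin (2 * n + 1) → ℂ)).range = ⊤ := by
    by_contra hne
    obtain ⟨lam, hlam, hker⟩ := Submodule.exists_le_ker_of_lt_top _ (lt_top_iff_ne_top.2 hne)
    apply hlam
    set c : Fin (2 * n + 1) → ℂ := fun l => lam (fun j => if l = j then 1 else 0) with hc
    have hlam' : ∀ w : Fin (2 * n + 1) → ℂ, lam w = ∑ l, w l * c l := by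
      intro w
      rw [LinearMap.pi_apply_eq_sum_univ lam w]
      rfl
    have hc0 : c = 0 := by
      apply hsurj
      intro i v
      have h1 : (G' n p0 (Pi.single i v)) ∈ ((G' n p0 : (ι → Fin 3 → ℂ) →L[ℂ] (Fin (2 * n + 1) → ℂ)) :
          (ι → Fin 3 → ℂ) →ₗ[ℂ] (Fin (2 * n + 1) → ℂ)).range := ⟨Pi.single i v, rfl⟩
      have h2 := hker h1
      rw [LinearMap.mem_ker, hlam'] at h2
      have h3 : ∑ l, (G' n p0 (Pi.single i v)) l * c l =
          (n : ℂ) * ∑ l, c l * ((ev (p0 i) ((l : ℕ) : ℂ)) ^ (n - 1) * ev v ((l : ℕ) : ℂ)) := by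
        rw [Finset.mul_sum]
        apply Finset.sum_congr rfl
        intro l _
        rw [G'_apply, Finset.sum_eq_single i]
        · rw [Pi.single_eq_same]; ring
        · intro j _ hj
          rw [Pi.single_eq_of_ne hj]
          simp [ev]
        · intro h; exact absurd (Finset.mem_univ _) h
      rw [h3] at h2
      rcases mul_eq_zero.1 h2 with h | h
      · exact absurd h hnC
      · exact h
    ext w
    rw [LinearMap.comp_apply, hlam', hc0]
    simp
  have hmap := (G_deriv n p0).map_nhds_eq_of_surj hrange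
  have hG0 : G n p0 = 0 := by
    funext l
    exact h0 _
  rw [hG0] at hmap
  have hmem : Set.range (G (ι := ι) n) ∈ nhds (0 : Fin (2 * n + 1) → ℂ) := by
    rw [← hmap]
    exact Filter.range_mem_map
  -- the line through zero
  have hcont : Filter.Tendsto (fun ε : ℂ => (fun l : Fin (2 * n + 1) => ε * ((l : ℕ) : ℂ)))
      (nhds 0) (nhds 0) := by
    have : Continuous (fun ε : ℂ => (fun l : Fin (2 * n + 1) => ε * ((l : ℕ) : ℂ))) := by fun_prop
    have h2 := this.tendsto 0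
    have e : (fun l : Fin (2 * n + 1) => (0 : ℂ) * ((l : ℕ) : ℂ)) = 0 := by
      funext l; simp
    rw [e] at h2
    exact h2
  have hev : ∀ᶠ ε in nhds (0 : ℂ), (fun l : Fin (2 * n + 1) => ε * ((l : ℕ) : ℂ)) ∈ Set.range (G (ι := ι) n) :=
    hcont hmem
  have hev' : ∀ᶠ ε in nhdsWithin (0 : ℂ) {0}ᶜ,
      (fun l : Fin (2 * n + 1) => ε * ((l : ℕ) : ℂ)) ∈ Set.range (G (ι := ι) n) :=
    hev.filter_mono nhdsWithin_le_nhds
  obtain ⟨ε, ⟨p, hp⟩, hε⟩ := (hev'.and self_mem_nhdsWithin).exists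
  have hε0 : ε ≠ 0 := hε
  -- polynomial identity
  have hpoly : (∑ i, (pv (p i)) ^ n - C ε * X : ℂ[X]) = 0 := by
    apply Polynomial.eq_zero_of_natDegree_lt_card_of_eval_eq_zero _
      (f := fun l : Fin (2 * n + 1) => ((l : ℕ) : ℂ))
    · intro a b hab
      have : ((a : ℕ) : ℂ) = ((b : ℕ) : ℂ) := hab
      exact Fin.ext (by exact_mod_cast this)
    · intro l
      have h1 := congrFun hp l
      simp only [G] at h1
      simp only [eval_sub, eval_mul, eval_C, eval_X, eval_finsetSum, eval_pow, pv_eval]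
      rw [h1]; ring
    · rw [Fintype.card_fin]
      have h1 : (∑ i, (pv (p i)) ^ n : ℂ[X]).natDegree ≤ 2 * n := by
        apply natDegree_sum_le_of_forall_le
        intro i _
        refine natDegree_pow_le.trans ?_
        have := pv_natDegree (p i)
        nlinarith
      have h2 : (C ε * X : ℂ[X]).natDegree ≤ 2 * n := by
        refine (natDegree_C_mul_le _ _).trans ?_
        rw [natDegree_X]; omega
      have := natDegree_sub_le_of_le h1 h2
      omega
  have hall : ∀ z : ℂ, ∑ i, (ev (p i) z) ^ n = ε * z := by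
    intro z
    have h1 := congrArg (fun P : ℂ[X] => P.eval z) hpoly
    simp only [eval_sub, eval_mul, eval_C, eval_X, eval_finsetSum, eval_pow, pv_eval, eval_zero] at h1
    exact sub_eq_zero.1 h1
  obtain ⟨t, ht⟩ := IsAlgClosed.exists_pow_nat_eq (ε⁻¹) (show 0 < n by omega)
  refine ⟨fun i j => t * p i j, fun z => ?_⟩
  have h1 : ∀ i, ev (fun j => t * p i j) z = t * ev (p i) z := by
    intro i; simp only [ev]; ring
  simp_rw [h1, mul_pow]
  rw [← Finset.mul_sum, hall, ht]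
  field_simp

end

end Pool.Agent.Helper559.Kn
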