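import Mathlib
import Pool.Agent.Helper559.Kn.Alt

set_option autoImplicit false

namespace Pool.Agent.Helper559.Kn

open Finset

/-- The factors `(i - l)(j - l)`. -/
def al (i j : ℕ) (l : ℕ) : ℝ := ((i - l : ℕ) : ℝ) * ((j - l : ℕ) : ℝ)

lemma al_nonneg (i j l : ℕ) : 0 ≤ al i j l := by unfold al; positivity

lemma al_comm (i j : ℕ) : al i j = al j i := by funext l; unfold al; ring

lemma al_le (i j l n : ℕ) (h : i + j ≤ n) : al i j l ≤ (n : ℝ) ^ 2 / 4 := by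
  unfold al
  have h1 : ((i - l : ℕ) : ℝ) + ((j - l : ℕ) : ℝ) ≤ n := by
    have : (i - l) + (j - l) ≤ n := by omega
    exact_mod_cast this
  have h2 : (0 : ℝ) ≤ ((i - l : ℕ) : ℝ) := by positivity
  have h3 : (0 : ℝ) ≤ ((j - l : ℕ) : ℝ) := by positivity
  nlinarith [sq_nonneg (((i - l : ℕ) : ℝ) - ((j - l : ℕ) : ℝ))]

lemma al_eq (i j l : ℕ) (hi : l ≤ i) (hj : l ≤ j) : al i j l = ((i : ℝ) - l) * ((j : ℝ) - l) := by
  unfold al
  rw [Nat.cast_sub hi, Nat.cast_sub hj]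

lemma al_zero_of_lt (i j l : ℕ) (hj : j ≤ l) : al i j l = 0 := by
  unfold al
  rw [Nat.sub_eq_zero_of_le hj]; simp

/-- General comparison. -/
lemma cmp (K : ℕ) (hK : 3 ≤ K) (i j a b n : ℕ) (d X : ℝ) (_hij : i + j ≤ n) (hab : a + b ≤ n)
    (hjb : j ≤ b) (hba : b ≤ a) (hji : j ≤ i)
    (hd : (a : ℝ) * b = (i : ℝ) * j + d) (hdpos : 0 < d)
    (hlow : ∀ l : ℕ, l ≤ j → ((i : ℝ) - l) * ((j : ℝ) - l) ≤ ((a : ℝ) - l) * ((b : ℝ) - l))
    (hup : ∀ l : ℕ, l ≤ b → l ≤ i →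
      ((a : ℝ) - l) * ((b : ℝ) - l) - ((i : ℝ) - l) * ((j : ℝ) - l) ≤ (1 + (l : ℝ) / 3) * d)
    (hbi : b ≤ i)
    (hX : 0 < X) (hXn : X * ((n : ℝ) ^ 2 / 4) ≤ 5) :
    Cs K (al a b) X < Cs K (al i j) X := by
  apply Cs_lt K hK (al i j) (al a b) d ((n : ℝ) ^ 2 / 4) X (al_nonneg i j)
  · intro l
    rcases Nat.lt_or_ge j l with h | h
    · rw [al_zero_of_lt i j l h.le]; exact al_nonneg a b l
    · rw [al_eq i j l (h.trans hji) h, al_eq a b l (h.trans (hjb.trans hba)) (h.trans hjb)]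
      exact hlow l h
  · intro l; exact al_le a b l n hab
  · rw [al_eq i j 0 (Nat.zero_le _) (Nat.zero_le _), al_eq a b 0 (Nat.zero_le _) (Nat.zero_le _)]
    simpa using hd
  · exact hdpos
  · intro l
    rcases Nat.lt_or_ge b l with h | h
    · rw [al_zero_of_lt a b l h.le]
      have := al_nonneg i j l
      have h2 : (0 : ℝ) ≤ (1 + (l : ℝ) / 3) * d := by positivity
      linarith
    · have hli : l ≤ i := h.trans hbi
      have h1 := hup l h hli
      rw [al_eq a b l (h.trans hba) h]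
      rcases Nat.lt_or_ge j l with h' | h'
      · rw [al_zero_of_lt i j l h'.le]
        have h3 : ((i : ℝ) - l) * ((j : ℝ) - l) ≤ 0 := by
          apply mul_nonpos_of_nonneg_of_nonpos
          · have : (l : ℝ) ≤ i := by exact_mod_cast hli
            linarith
          · have : (j : ℝ) ≤ l := by exact_mod_cast h'.le
            linarith
        linarith
      · rw [al_eq i j l hli h']
        exact h1
  · exact hX
  · exact hXn

section
variable (K : ℕ) (hK : 3 ≤ K) (i0 j0 μ n : ℕ) (hi0 : i0 = j0 + μ) (hn : n = 2 * j0 + μ)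
  (hμ : j0 + 2 ≤ μ) (hj0 : 5 ≤ j0) (X : ℝ) (hX : 0 < X) (hXn : X * ((n : ℝ) ^ 2 / 4) ≤ 5)
  (hroot : Cs K (al i0 j0) X = 0)
include hK hi0 hn hμ hj0 hX hXn hroot

lemma T1 (i j : ℕ) (hij : i + j = n) (h : i0 < i) : 0 < Cs K (al i j) X := by
  rw [← hroot]
  have hi0r : (i0 : ℝ) = j0 + μ := by exact_mod_cast hi0
  have hnr : (n : ℝ) = 2 * j0 + μ := by exact_mod_cast hn
  have hijr : (i : ℝ) + j = n := by exact_mod_cast hij
  have hr : (i0 : ℝ) + 1 ≤ i := by exact_mod_cast h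
  have hμr : (j0 : ℝ) + 2 ≤ μ := by exact_mod_cast hμ
  have hj : (j : ℝ) = j0 - (i - i0) := by linarith
  have hj0' : (5 : ℝ) ≤ j0 := by exact_mod_cast hj0
  refine cmp K hK i j i0 j0 n (((i : ℝ) - i0) * ((i : ℝ) - j0)) X hij.le (by omega) (by omega) (by omega)
    (by omega) ?_ ?_ ?_ ?_ (by omega) hX hXn
  · rw [hj]; ring
  · apply mul_pos <;> linarith
  · intro l hl
    have : 0 ≤ ((i : ℝ) - i0) * ((i : ℝ) - j0) := by apply mul_nonneg <;> linarith
    rw [hj]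
    nlinarith
  · intro l hl hl2
    have h0 : 0 ≤ ((i : ℝ) - i0) * ((i : ℝ) - j0) := by apply mul_nonneg <;> linarith
    have h1 : (0 : ℝ) ≤ l := by positivity
    have h2 : 0 ≤ (l : ℝ) / 3 * (((i : ℝ) - i0) * ((i : ℝ) - j0)) := by positivity
    rw [hj]
    nlinarith

lemma T2 (i j : ℕ) (hij : i + j = n) (h : i < i0) (h' : j < i0) : Cs K (al i j) X < 0 := by
  rw [← hroot]
  wlog hle : j ≤ i generalizing i j
  · rw [al_comm]
    exact this j i (by omega) h' h (by omega)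
  have hi0r : (i0 : ℝ) = j0 + μ := by exact_mod_cast hi0
  have hnr : (n : ℝ) = 2 * j0 + μ := by exact_mod_cast hn
  have hijr : (i : ℝ) + j = n := by exact_mod_cast hij
  have hr : (i : ℝ) + 1 ≤ i0 := by exact_mod_cast h
  have hr' : (j : ℝ) + 1 ≤ i0 := by exact_mod_cast h'
  have hμr : (j0 : ℝ) + 2 ≤ μ := by exact_mod_cast hμ
  have hj : (j : ℝ) = j0 + (i0 - i) := by linarith
  have hj0' : (5 : ℝ) ≤ j0 := by exact_mod_cast hj0
  refine cmp K hK i0 j0 i j n (((i0 : ℝ) - i) * ((i : ℝ) - j0)) X (by omega) hij.le (by omega) hle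
    (by omega) ?_ ?_ ?_ ?_ (by omega) hX hXn
  · rw [hj]; ring
  · apply mul_pos <;> linarith
  · intro l hl
    have : 0 ≤ ((i0 : ℝ) - i) * ((i : ℝ) - j0) := by apply mul_nonneg <;> linarith
    rw [hj]
    nlinarith
  · intro l hl hl2
    have h0 : 0 ≤ ((i0 : ℝ) - i) * ((i : ℝ) - j0) := by apply mul_nonneg <;> linarith
    have h1 : (0 : ℝ) ≤ l := by positivity
    have h2 : 0 ≤ (l : ℝ) / 3 * (((i0 : ℝ) - i) * ((i : ℝ) - j0)) := by positivity
    rw [hj]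
    nlinarith

lemma T3 (i j : ℕ) (hij : i + j + 1 = n) (h : i0 ≤ i) : 0 < Cs K (al i j) X := by
  rw [← hroot]
  have hi0r : (i0 : ℝ) = j0 + μ := by exact_mod_cast hi0
  have hnr : (n : ℝ) = 2 * j0 + μ := by exact_mod_cast hn
  have hijr : (i : ℝ) + j + 1 = n := by exact_mod_cast hij
  have hr : (i0 : ℝ) ≤ i := by exact_mod_cast h
  have hμr : (j0 : ℝ) + 2 ≤ μ := by exact_mod_cast hμ
  have hj : (j : ℝ) = j0 - 1 - (i - i0) := by linarith
  have hj0' : (5 : ℝ) ≤ j0 := by exact_mod_cast hj0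
  set s : ℝ := i - i0 with hs
  have hs0 : 0 ≤ s := by linarith
  have hi : (i : ℝ) = i0 + s := by rw [hs]; ring
  -- d = i0 + s (i0 - j0) + s + s^2
  refine cmp K hK i j i0 j0 n ((i0 : ℝ) + s * (i0 - j0) + s + s ^ 2) X (by omega) (by omega) (by omega)
    (by omega) (by omega) ?_ ?_ ?_ ?_ (by omega) hX hXn
  · rw [hj, hi]; ring
  · have : 0 ≤ s * ((i0 : ℝ) - j0) := by apply mul_nonneg <;> linarith
    nlinarith
  · intro l hl
    have h1 : 0 ≤ s * ((i0 : ℝ) - j0) := by apply mul_nonneg <;> linarith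
    have h2 : (l : ℝ) ≤ j := by exact_mod_cast hl
    have h3 : (l : ℝ) ≤ i0 := by linarith
    rw [hj, hi]
    nlinarith [sq_nonneg s]
  · intro l hl hl2
    have h1 : 0 ≤ s * ((i0 : ℝ) - j0) := by apply mul_nonneg <;> linarith
    have h1' : (0 : ℝ) ≤ l := by positivity
    have hd0 : 0 ≤ ((i0 : ℝ) + s * (i0 - j0) + s + s ^ 2) := by nlinarith [sq_nonneg s]
    have h2 : 0 ≤ (l : ℝ) / 3 * ((i0 : ℝ) + s * (i0 - j0) + s + s ^ 2) := by positivity
    rw [hj, hi]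
    nlinarith [sq_nonneg s]

lemma T4 (i j : ℕ) (hij : i + j + 1 = n) (h : μ ≤ i) (h' : μ ≤ j) : Cs K (al i j) X < 0 := by
  rw [← hroot]
  wlog hle : j ≤ i generalizing i j
  · rw [al_comm]
    exact this j i (by omega) h' h (by omega)
  have hi0r : (i0 : ℝ) = j0 + μ := by exact_mod_cast hi0
  have hnr : (n : ℝ) = 2 * j0 + μ := by exact_mod_cast hn
  have hijr : (i : ℝ) + j + 1 = n := by exact_mod_cast hij
  have hr : (μ : ℝ) ≤ i := by exact_mod_cast h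
  have hr' : (μ : ℝ) ≤ j := by exact_mod_cast h'
  have hμr : (j0 : ℝ) + 2 ≤ μ := by exact_mod_cast hμ
  have hj0' : (5 : ℝ) ≤ j0 := by exact_mod_cast hj0
  have hi : (i : ℝ) = 2 * j0 + μ - 1 - j := by linarith
  have hd3 : 3 ≤ (i : ℝ) * j - i0 * j0 := by
    have h1 : 0 ≤ ((i : ℝ) - μ) * ((j : ℝ) - μ) := by apply mul_nonneg <;> linarith
    -- i j >= mu (i + j) - mu^2 = mu (2 j0 - 1)
    have h2 : (μ : ℝ) * (2 * j0 - 1) ≤ (i : ℝ) * j := by
      have : (i : ℝ) + j = 2 * j0 + μ - 1 := by linarith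
      nlinarith
    rw [hi0r]
    nlinarith
  refine cmp K hK i0 j0 i j n ((i : ℝ) * j - i0 * j0) X (by omega) (by omega) (by omega) hle
    (by omega) ?_ ?_ ?_ ?_ (by omega) hX hXn
  · ring
  · linarith
  · intro l hl
    have h1' : (0 : ℝ) ≤ l := by positivity
    nlinarith
  · intro l hl hl2
    have h1' : (0 : ℝ) ≤ l := by positivity
    have e : ((i : ℝ) - l) * ((j : ℝ) - l) - ((i0 : ℝ) - l) * ((j0 : ℝ) - l) =
        ((i : ℝ) * j - i0 * j0) + l := by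
      have e1 : (i : ℝ) + j = i0 + j0 - 1 := by linarith
      have : (l : ℝ) * (i + j) = l * (i0 + j0 - 1) := by rw [e1]
      nlinarith
    rw [e]
    nlinarith

end

/-- Existence of the root. -/
lemma root_exists (K : ℕ) (hK : 3 ≤ K) (i0 j0 μ n : ℕ) (hi0 : i0 = j0 + μ) (hn : n = 2 * j0 + μ)
    (hμ : 5 * μ ≤ 8 * j0) (hj0 : 5 ≤ j0) :
    ∃ X : ℝ, 0 < X ∧ X * ((n : ℝ) ^ 2 / 4) ≤ 5 ∧ Cs K (al i0 j0) X = 0 := by
  have hi0r : (i0 : ℝ) = j0 + μ := by exact_mod_cast hi0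
  have hnr : (n : ℝ) = 2 * j0 + μ := by exact_mod_cast hn
  have hμr : 5 * (μ : ℝ) ≤ 8 * j0 := by exact_mod_cast hμ
  have hj0' : (5 : ℝ) ≤ j0 := by exact_mod_cast hj0
  have hμ0 : (0 : ℝ) ≤ μ := by positivity
  have hn0 : (0 : ℝ) < n := by linarith
  set X1 : ℝ := 20 / (n : ℝ) ^ 2 with hX1
  have hX1pos : 0 < X1 := by positivity
  have hX1n : X1 * ((n : ℝ) ^ 2 / 4) = 5 := by rw [hX1]; field_simp; norm_num
  have hcont : Continuous (fun X : ℝ => Cs K (al i0 j0) X) := by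
    unfold Cs
    fun_prop
  have h0 : Cs K (al i0 j0) 0 = 1 := by
    obtain ⟨L, rfl⟩ : ∃ L, K = L + 1 := ⟨K - 1, by omega⟩
    rw [Cs, Finset.sum_range_succ']
    rw [Finset.sum_eq_zero]
    · simp
    · intro q _
      simp
  have h1 : Cs K (al i0 j0) X1 < 0 := by
    have h2 := Cs_upper K hK (al i0 j0) ((n : ℝ) ^ 2 / 4) X1 (al_nonneg i0 j0)
      (fun l => al_le i0 j0 l n (by omega)) hX1pos.le hX1n.le
    refine lt_of_le_of_lt h2 ?_
    have a0 : al i0 j0 0 = (i0 : ℝ) * j0 := by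
      rw [al_eq i0 j0 0 (Nat.zero_le _) (Nat.zero_le _)]; simp
    have a1 : al i0 j0 1 ≤ (i0 : ℝ) * j0 := by
      rw [al_eq i0 j0 1 (by omega) (by omega)]
      have : (0 : ℝ) ≤ i0 := by positivity
      push_cast
      nlinarith
    have a1' := al_nonneg i0 j0 1
    set P : ℝ := (i0 : ℝ) * j0 with hP
    have hP0 : 0 ≤ P := by positivity
    rw [a0]
    set t : ℝ := X1 * P with ht
    have ht5 : t ≤ 5 := by
      rw [ht, ← hX1n]
      apply mul_le_mul_of_nonneg_left _ hX1pos.le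
      rw [hP, hi0r, hnr]
      nlinarith [sq_nonneg (μ : ℝ)]
    have ht4 : 4 ≤ t := by
      rw [ht, hX1, div_mul_eq_mul_div, le_div_iff₀ (by positivity), hP, hi0r, hnr]
      nlinarith [mul_nonneg (show (0:ℝ) ≤ 8 * j0 - 5 * μ by linarith) (show (0:ℝ) ≤ (j0:ℝ) by linarith),
        mul_nonneg (show (0:ℝ) ≤ 8 * j0 - 5 * μ by linarith) hμ0]
    have h3 : X1 ^ 2 * (P * al i0 j0 1) / 24 ≤ t ^ 2 / 24 := by
      have : X1 ^ 2 * (P * al i0 j0 1) ≤ X1 ^ 2 * (P * P) :=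
        mul_le_mul_of_nonneg_left (mul_le_mul_of_nonneg_left a1 hP0) (by positivity)
      have e : t ^ 2 = X1 ^ 2 * (P * P) := by rw [ht]; ring
      rw [e]; linarith
    have h4 : 1 - t / 2 + t ^ 2 / 24 < 0 := by nlinarith
    linarith
  -- intermediate value theorem
  have hivt := intermediate_value_Icc' (f := fun X : ℝ => Cs K (al i0 j0) X) hX1pos.le hcont.continuousOn
  have hmem : (0 : ℝ) ∈ Set.Icc (Cs K (al i0 j0) X1) (Cs K (al i0 j0) 0) := ⟨h1.le, by rw [h0]; norm_num⟩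
  obtain ⟨X, hXI, hX0⟩ := hivt hmem
  have hXpos : 0 < X := by
    rcases hXI.1.lt_or_eq with h | h
    · exact h
    · exfalso
      rw [← h] at hX0
      simp only [h0] at hX0
      norm_num at hX0
  refine ⟨X, hXpos, ?_, hX0⟩
  rw [← hX1n]
  exact mul_le_mul_of_nonneg_right hXI.2 (by positivity)

end Pool.Agent.Helper559.Kn
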