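import Mathlib
import Pool.Agent.Helper559.Kn.Sign

set_option autoImplicit false

namespace Pool.Agent.Helper559.Kn

open Finset Polynomial

/-- The base quadratic. -/
noncomputable def fb (β : ℝ) : ℝ[X] := C β * X + (1 - X ^ 2)

lemma coeff_one_sub_sq_pow (r k : ℕ) : ((1 - X ^ 2 : ℝ[X]) ^ r).coeff k =
    if Even k then (-1 : ℝ) ^ (k / 2) * (r.choose (k / 2) : ℝ) else 0 := by
  have e : (1 - X ^ 2 : ℝ[X]) ^ r = ∑ l ∈ range (r + 1), C ((-1 : ℝ) ^ l * (r.choose l : ℝ)) * X ^ (2 * l) := by
    rw [show (1 - X ^ 2 : ℝ[X]) = -X ^ 2 + 1 by ring, add_pow]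
    apply Finset.sum_congr rfl
    intro l _
    rw [one_pow, mul_one, neg_pow, ← pow_mul, C_mul, C_pow, C_neg, C_1, C_eq_natCast]
    ring
  rw [e, finsetSum_coeff]
  simp only [coeff_C_mul, coeff_X_pow]
  split_ifs with h
  · obtain ⟨s, hs⟩ := h
    have hk : k / 2 = s := by omega
    rw [hk]
    by_cases hsr : s ∈ range (r + 1)
    · rw [Finset.sum_eq_single_of_mem s hsr]
      · rw [if_pos (by omega), mul_one]
      · intro b _ hb
        rw [if_neg (by omega), mul_zero]
    · rw [Finset.mem_range, not_lt] at hsr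
      rw [Nat.choose_eq_zero_of_lt (by omega), Finset.sum_eq_zero]
      · simp
      · intro l hl
        rw [Finset.mem_range] at hl
        rw [if_neg (by omega), mul_zero]
  · apply Finset.sum_eq_zero
    intro l _
    rw [if_neg, mul_zero]
    intro h'
    apply h
    exact ⟨l, by omega⟩

lemma sum_range_two_mul (L : ℕ) (G : ℕ → ℝ) :
    ∑ p ∈ range (2 * L), G p = ∑ q ∈ range L, (G (2 * q) + G (2 * q + 1)) := by
  induction L with
  | zero => simp
  | succ L ih =>
    rw [show 2 * (L + 1) = 2 * L + 1 + 1 by ring, Finset.sum_range_succ, Finset.sum_range_succ,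
      Finset.sum_range_succ, ih]
    ring

lemma coeff_fb_pow (β : ℝ) (m J L : ℕ) (hL : m + 1 ≤ 2 * L) : ((fb β) ^ m).coeff J =
    ∑ p ∈ range (2 * L), (if p ≤ J then β ^ p * (m.choose p : ℝ) *
      ((1 - X ^ 2 : ℝ[X]) ^ (m - p)).coeff (J - p) else 0) := by
  rw [fb, add_pow, finsetSum_coeff]
  rw [← Finset.sum_subset (Finset.range_subset_range.2 hL)]
  · apply Finset.sum_congr rfl
    intro p _
    rw [mul_pow, ← C_pow, mul_assoc (C (β ^ p)), mul_assoc (C (β ^ p)), coeff_C_mul,
      mul_assoc (X ^ p), ← C_eq_natCast, mul_comm (X ^ p), coeff_mul_X_pow', mul_comm, ]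
    split_ifs with h
    · rw [mul_comm _ (C _), coeff_C_mul]
      ring
    · simp
  · intro p _ hp
    rw [Finset.mem_range, not_lt] at hp
    rw [Nat.choose_eq_zero_of_lt (by omega)]
    simp

lemma prod_al (i j q : ℕ) : ∏ l ∈ range q, al i j l =
    ((i.descFactorial q : ℕ) : ℝ) * ((j.descFactorial q : ℕ) : ℝ) := by
  unfold al
  rw [Finset.prod_mul_distrib, Nat.descFactorial_eq_prod_range, Nat.descFactorial_eq_prod_range]
  push_cast
  rfl

lemma comb_even (i j q : ℕ) (hq : q ≤ i) :
    ((i + j).choose (2 * q) : ℝ) * ((i + j - 2 * q).choose (i - q) : ℝ) =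
      ((i + j).choose i : ℝ) * (((i.descFactorial q : ℕ) : ℝ) * ((j.descFactorial q : ℕ) : ℝ) /
        ((2 * q).factorial : ℝ)) := by
  rcases Nat.lt_or_ge j q with h | h
  · rw [Nat.descFactorial_eq_zero_iff_lt.2 h]
    simp only [Nat.cast_zero, mul_zero, zero_div, mul_eq_zero, Nat.cast_eq_zero]
    rcases Nat.lt_or_ge (i + j) (2 * q) with h2 | h2
    · left; exact Nat.choose_eq_zero_of_lt h2
    · right; exact Nat.choose_eq_zero_of_lt (by omega)
  · have f1 : ((i + j).choose (2 * q) : ℝ) = ((i + j).factorial : ℝ) /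
        ((2 * q).factorial * (i + j - 2 * q).factorial) := Nat.cast_choose ℝ (by omega)
    have f2 : ((i + j - 2 * q).choose (i - q) : ℝ) = ((i + j - 2 * q).factorial : ℝ) /
        ((i - q).factorial * (i + j - 2 * q - (i - q)).factorial) := Nat.cast_choose ℝ (by omega)
    have f3 : ((i + j).choose i : ℝ) = ((i + j).factorial : ℝ) / (i.factorial * (i + j - i).factorial) :=
      Nat.cast_choose ℝ (by omega)
    have e1 : i + j - 2 * q - (i - q) = j - q := by omega
    have e2 : i + j - i = j := by omega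
    have g1 : ((i - q).factorial : ℝ) * (i.descFactorial q : ℝ) = i.factorial := by
      exact_mod_cast Nat.factorial_mul_descFactorial hq
    have g2 : ((j - q).factorial : ℝ) * (j.descFactorial q : ℝ) = j.factorial := by
      exact_mod_cast Nat.factorial_mul_descFactorial h
    rw [f1, f2, f3, e1, e2, ← g1, ← g2]
    have p1 : ((i - q).factorial : ℝ) ≠ 0 := by positivity
    have p2 : ((j - q).factorial : ℝ) ≠ 0 := by positivity
    have p3 : (i.descFactorial q : ℝ) ≠ 0 := by
      intro h0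
      have : i.descFactorial q = 0 := by exact_mod_cast h0
      rw [Nat.descFactorial_eq_zero_iff_lt] at this
      omega
    have p4 : (j.descFactorial q : ℝ) ≠ 0 := by
      intro h0
      have : j.descFactorial q = 0 := by exact_mod_cast h0
      rw [Nat.descFactorial_eq_zero_iff_lt] at this
      omega
    have p5 : ((i + j - 2 * q).factorial : ℝ) ≠ 0 := by positivity
    field_simp

lemma comb_odd (i j q : ℕ) (hq : q ≤ i) :
    ((i + j + 1).choose (2 * q + 1) : ℝ) * ((i + j + 1 - (2 * q + 1)).choose (i - q) : ℝ) =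
      ((i + j + 1).factorial : ℝ) / (i.factorial * j.factorial) *
        (((i.descFactorial q : ℕ) : ℝ) * ((j.descFactorial q : ℕ) : ℝ) /
        ((2 * q + 1).factorial : ℝ)) := by
  rcases Nat.lt_or_ge j q with h | h
  · rw [Nat.descFactorial_eq_zero_iff_lt.2 h]
    simp only [Nat.cast_zero, mul_zero, zero_div, mul_eq_zero, Nat.cast_eq_zero]
    rcases Nat.lt_or_ge (i + j + 1) (2 * q + 1) with h2 | h2
    · left; exact Nat.choose_eq_zero_of_lt h2
    · right; exact Nat.choose_eq_zero_of_lt (by omega)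
  · have f1 : ((i + j + 1).choose (2 * q + 1) : ℝ) = ((i + j + 1).factorial : ℝ) /
        ((2 * q + 1).factorial * (i + j + 1 - (2 * q + 1)).factorial) := Nat.cast_choose ℝ (by omega)
    have f2 : ((i + j + 1 - (2 * q + 1)).choose (i - q) : ℝ) =
        ((i + j + 1 - (2 * q + 1)).factorial : ℝ) /
        ((i - q).factorial * (i + j + 1 - (2 * q + 1) - (i - q)).factorial) :=
      Nat.cast_choose ℝ (by omega)
    have e1 : i + j + 1 - (2 * q + 1) - (i - q) = j - q := by omega
    have g1 : ((i - q).factorial : ℝ) * (i.descFactorial q : ℝ) = i.factorial := by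
      exact_mod_cast Nat.factorial_mul_descFactorial hq
    have g2 : ((j - q).factorial : ℝ) * (j.descFactorial q : ℝ) = j.factorial := by
      exact_mod_cast Nat.factorial_mul_descFactorial h
    rw [f1, f2, e1, ← g1, ← g2]
    have p1 : ((i - q).factorial : ℝ) ≠ 0 := by positivity
    have p2 : ((j - q).factorial : ℝ) ≠ 0 := by positivity
    have p3 : (i.descFactorial q : ℝ) ≠ 0 := by
      intro h0
      have : i.descFactorial q = 0 := by exact_mod_cast h0
      rw [Nat.descFactorial_eq_zero_iff_lt] at this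
      omega
    have p4 : (j.descFactorial q : ℝ) ≠ 0 := by
      intro h0
      have : j.descFactorial q = 0 := by exact_mod_cast h0
      rw [Nat.descFactorial_eq_zero_iff_lt] at this
      omega
    have p5 : ((i + j + 1 - (2 * q + 1)).factorial : ℝ) ≠ 0 := by positivity
    field_simp

lemma coeff_even (β : ℝ) (i j K : ℕ) (hi : i < K) (hj : j < K) :
    ((fb β) ^ (i + j)).coeff (2 * i) =
      (-1 : ℝ) ^ i * ((i + j).choose i : ℝ) * Cs K (al i j) (β ^ 2) := by
  rw [coeff_fb_pow β (i + j) (2 * i) K (by omega), sum_range_two_mul, Cs, Finset.mul_sum]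
  apply Finset.sum_congr rfl
  intro q _
  have hodd : (if 2 * q + 1 ≤ 2 * i then β ^ (2 * q + 1) * ((i + j).choose (2 * q + 1) : ℝ) *
      ((1 - X ^ 2 : ℝ[X]) ^ (i + j - (2 * q + 1))).coeff (2 * i - (2 * q + 1)) else 0) = 0 := by
    split_ifs with h
    · rw [coeff_one_sub_sq_pow, if_neg, mul_zero]
      rw [Nat.not_even_iff_odd]
      exact ⟨i - q - 1, by omega⟩
    · rfl
  rw [hodd, add_zero, prod_al]
  rcases Nat.lt_or_ge i q with h | h
  · rw [if_neg (by omega), Nat.descFactorial_eq_zero_iff_lt.2 h]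
    simp
  · rw [if_pos (by omega), coeff_one_sub_sq_pow, if_pos ⟨i - q, by omega⟩]
    have e : (2 * i - 2 * q) / 2 = i - q := by omega
    rw [e]
    have hc := comb_even i j q h
    have hs : (-1 : ℝ) ^ (i - q) = (-1) ^ i * (-1) ^ q := by
      rw [← pow_add]
      have : i + q = (i - q) + 2 * q := by omega
      rw [this, pow_add, pow_mul]
      norm_num
    rw [hs]
    calc β ^ (2 * q) * ((i + j).choose (2 * q) : ℝ) * ((-1) ^ i * (-1) ^ q * ((i + j - 2 * q).choose (i - q) : ℝ))
        = (-1) ^ i * (-1) ^ q * β ^ (2 * q) * (((i + j).choose (2 * q) : ℝ) *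
          ((i + j - 2 * q).choose (i - q) : ℝ)) := by ring
      _ = _ := by rw [hc, pow_mul]; ring

lemma coeff_odd (β : ℝ) (i j K : ℕ) (hi : i < K) (hj : j < K) :
    ((fb β) ^ (i + j + 1)).coeff (2 * i + 1) =
      (-1 : ℝ) ^ i * (((i + j + 1).factorial : ℝ) / (i.factorial * j.factorial)) * β *
        Sn K (al i j) (β ^ 2) := by
  rw [coeff_fb_pow β (i + j + 1) (2 * i + 1) K (by omega), sum_range_two_mul, Sn, Finset.mul_sum]
  apply Finset.sum_congr rfl
  intro q _
  have heven : (if 2 * q ≤ 2 * i + 1 then β ^ (2 * q) * ((i + j + 1).choose (2 * q) : ℝ) *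
      ((1 - X ^ 2 : ℝ[X]) ^ (i + j + 1 - (2 * q))).coeff (2 * i + 1 - (2 * q)) else 0) = 0 := by
    split_ifs with h
    · rw [coeff_one_sub_sq_pow, if_neg, mul_zero]
      rw [Nat.not_even_iff_odd]
      exact ⟨i - q, by omega⟩
    · rfl
  rw [heven, zero_add, prod_al]
  rcases Nat.lt_or_ge i q with h | h
  · rw [if_neg (by omega), Nat.descFactorial_eq_zero_iff_lt.2 h]
    simp
  · rw [if_pos (by omega), coeff_one_sub_sq_pow, if_pos ⟨i - q, by omega⟩]
    have e : (2 * i + 1 - (2 * q + 1)) / 2 = i - q := by omega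
    rw [e]
    have hc := comb_odd i j q h
    have hs : (-1 : ℝ) ^ (i - q) = (-1) ^ i * (-1) ^ q := by
      rw [← pow_add]
      have : i + q = (i - q) + 2 * q := by omega
      rw [this, pow_add, pow_mul]
      norm_num
    rw [hs]
    calc β ^ (2 * q + 1) * ((i + j + 1).choose (2 * q + 1) : ℝ) * ((-1) ^ i * (-1) ^ q * ((i + j + 1 - (2 * q + 1)).choose (i - q) : ℝ))
        = (-1) ^ i * (-1) ^ q * β ^ (2 * q + 1) * (((i + j + 1).choose (2 * q + 1) : ℝ) *
          ((i + j + 1 - (2 * q + 1)).choose (i - q) : ℝ)) := by ring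
      _ = _ := by rw [hc, pow_succ, pow_mul]; ring

end Pool.Agent.Helper559.Kn
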