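import Mathlib
import Pool.Agent.Helper559.Kn.Coef

set_option autoImplicit false
set_option linter.unusedSectionVars false

namespace Pool.Agent.Helper559.Kn

open Finset Polynomial

/-- Coefficients of the `n`-th power. -/
noncomputable def yc (β : ℝ) (n J : ℕ) : ℝ := ((fb β) ^ n).coeff J

/-- Coefficients of `X` times the `(n-1)`-st power. -/
noncomputable def gc (β : ℝ) (n J : ℕ) : ℝ := (X * (fb β) ^ (n - 1)).coeff J

lemma fb_natDegree_le (β : ℝ) : (fb β).natDegree ≤ 2 := by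
  unfold fb
  compute_degree

lemma gc_top (β : ℝ) (n : ℕ) (hn : 1 ≤ n) : gc β n (2 * n) = 0 := by
  unfold gc
  obtain ⟨t, rfl⟩ : ∃ t, n = t + 1 := ⟨n - 1, by omega⟩
  rw [show 2 * (t + 1) = (2 * t + 1) + 1 by ring, coeff_X_mul]
  apply coeff_eq_zero_of_natDegree_lt
  calc ((fb β) ^ (t + 1 - 1)).natDegree ≤ t * 2 := by
        rw [Nat.add_sub_cancel]
        exact (natDegree_pow_le).trans (Nat.mul_le_mul_left _ (fb_natDegree_le β))
    _ < 2 * t + 1 := by omega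

section
variable (β : ℝ) (hβ : 0 < β) (n K : ℕ) (hK2 : 2 ≤ K) (hK : n < K) (hX : β ^ 2 * ((n : ℝ) ^ 2 / 4) ≤ 5)
include hβ hK hX hK2

lemma Sn_pos' (i j : ℕ) (hij : i + j ≤ n) : 0 < Sn K (al i j) (β ^ 2) :=
  Sn_pos K hK2 (al i j) ((n : ℝ) ^ 2 / 4) (β ^ 2) (al_nonneg i j) (fun l => al_le i j l n hij)
    (by positivity) hX

lemma neg_one_pow_ne (i : ℕ) : (-1 : ℝ) ^ i ≠ 0 := pow_ne_zero _ (by norm_num)

lemma choose_pos' (m i : ℕ) (h : i ≤ m) : (0 : ℝ) < (m.choose i : ℝ) := by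
  exact_mod_cast Nat.choose_pos h

lemma even_y (i : ℕ) (hi : i ≤ n) : yc β n (2 * i) =
    (-1 : ℝ) ^ i * (n.choose i : ℝ) * Cs K (al i (n - i)) (β ^ 2) := by
  have h := coeff_even β i (n - i) K (by omega) (by omega)
  rw [show i + (n - i) = n by omega] at h
  exact h

lemma odd_y (i : ℕ) (hi : i + 1 ≤ n) : yc β n (2 * i + 1) =
    (-1 : ℝ) ^ i * ((n.factorial : ℝ) / (i.factorial * (n - 1 - i).factorial)) * β *
      Sn K (al i (n - 1 - i)) (β ^ 2) := by
  have h := coeff_odd β i (n - 1 - i) K (by omega) (by omega)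
  rw [show i + (n - 1 - i) + 1 = n by omega] at h
  exact h

lemma even_g (i : ℕ) (hi : 1 ≤ i) (hin : i + 1 ≤ n) : gc β n (2 * i) =
    (-1 : ℝ) ^ (i - 1) * (((n - 1).factorial : ℝ) / ((i - 1).factorial * (n - 1 - i).factorial)) * β *
      Sn K (al (i - 1) (n - 1 - i)) (β ^ 2) := by
  have h := coeff_odd β (i - 1) (n - 1 - i) K (by omega) (by omega)
  rw [show i - 1 + (n - 1 - i) + 1 = n - 1 by omega] at h
  rw [gc, show 2 * i = (2 * (i - 1) + 1) + 1 by omega, coeff_X_mul]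
  exact h

lemma odd_g (i : ℕ) (hi : i + 1 ≤ n) : gc β n (2 * i + 1) =
    (-1 : ℝ) ^ i * ((n - 1).choose i : ℝ) * Cs K (al i (n - 1 - i)) (β ^ 2) := by
  have h := coeff_even β i (n - 1 - i) K (by omega) (by omega)
  rw [show i + (n - 1 - i) = n - 1 by omega] at h
  rw [gc, coeff_X_mul]
  exact h

lemma even_pos (i : ℕ) (hi : i ≤ n) (hn : 1 ≤ n) (h : 0 < Cs K (al i (n - i)) (β ^ 2)) :
    yc β n (2 * i) ≠ 0 ∧ gc β n (2 * i) / yc β n (2 * i) ≤ 0 := by
  have hy := even_y β hβ n K hK2 hK hX i hi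
  have hc := choose_pos' β hβ n K hK2 hK hX n i hi
  have hy0 : yc β n (2 * i) ≠ 0 := by
    rw [hy]
    have := neg_one_pow_ne β hβ n K hK2 hK hX i
    exact mul_ne_zero (mul_ne_zero this hc.ne') h.ne'
  refine ⟨hy0, ?_⟩
  rcases Nat.eq_zero_or_pos i with h0 | h0
  · subst h0
    have : gc β n (2 * 0) = 0 := by unfold gc; simp
    rw [this, zero_div]
  rcases Nat.lt_or_ge i n with h1 | h1
  · have hg := even_g β hβ n K hK2 hK hX i h0 h1
    have hs : 0 < Sn K (al (i - 1) (n - 1 - i)) (β ^ 2) := Sn_pos' β hβ n K hK2 hK hX _ _ (by omega)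
    rw [hg, hy]
    have e1 : (-1 : ℝ) ^ i = -(-1 : ℝ) ^ (i - 1) := by
      conv_lhs => rw [show i = (i - 1) + 1 by omega, pow_succ]
      ring
    rw [e1]
    set P := ((n - 1).factorial : ℝ) / ((i - 1).factorial * (n - 1 - i).factorial) with hP
    have hP0 : 0 < P := by rw [hP]; positivity
    have e2 : (-1 : ℝ) ^ (i - 1) * P * β * Sn K (al (i - 1) (n - 1 - i)) (β ^ 2) /
        (-(-1) ^ (i - 1) * (n.choose i : ℝ) * Cs K (al i (n - i)) (β ^ 2)) =
        -(P * β * Sn K (al (i - 1) (n - 1 - i)) (β ^ 2) / ((n.choose i : ℝ) * Cs K (al i (n - i)) (β ^ 2))) := by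
      have := neg_one_pow_ne β hβ n K hK2 hK hX (i - 1)
      field_simp
    rw [e2]
    have : 0 ≤ P * β * Sn K (al (i - 1) (n - 1 - i)) (β ^ 2) / ((n.choose i : ℝ) * Cs K (al i (n - i)) (β ^ 2)) := by
      positivity
    linarith
  · have : i = n := by omega
    subst this
    rw [gc_top β i hn, zero_div]

lemma even_neg (i : ℕ) (h0 : 1 ≤ i) (h1 : i + 1 ≤ n) (h : Cs K (al i (n - i)) (β ^ 2) < 0) :
    yc β n (2 * i) ≠ 0 ∧ 0 < gc β n (2 * i) / yc β n (2 * i) := by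
  have hy := even_y β hβ n K hK2 hK hX i (by omega)
  have hc := choose_pos' β hβ n K hK2 hK hX n i (by omega)
  have hy0 : yc β n (2 * i) ≠ 0 := by
    rw [hy]
    have := neg_one_pow_ne β hβ n K hK2 hK hX i
    exact mul_ne_zero (mul_ne_zero this hc.ne') h.ne
  refine ⟨hy0, ?_⟩
  have hg := even_g β hβ n K hK2 hK hX i h0 h1
  have hs : 0 < Sn K (al (i - 1) (n - 1 - i)) (β ^ 2) := Sn_pos' β hβ n K hK2 hK hX _ _ (by omega)
  rw [hg, hy]
  have e1 : (-1 : ℝ) ^ i = -(-1 : ℝ) ^ (i - 1) := by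
    conv_lhs => rw [show i = (i - 1) + 1 by omega, pow_succ]
    ring
  rw [e1]
  set P := ((n - 1).factorial : ℝ) / ((i - 1).factorial * (n - 1 - i).factorial) with hP
  have hP0 : 0 < P := by rw [hP]; positivity
  have e2 : (-1 : ℝ) ^ (i - 1) * P * β * Sn K (al (i - 1) (n - 1 - i)) (β ^ 2) /
      (-(-1) ^ (i - 1) * (n.choose i : ℝ) * Cs K (al i (n - i)) (β ^ 2)) =
      (P * β * Sn K (al (i - 1) (n - 1 - i)) (β ^ 2) / ((n.choose i : ℝ) * (-Cs K (al i (n - i)) (β ^ 2)))) := by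
    have := neg_one_pow_ne β hβ n K hK2 hK hX (i - 1)
    have h3 : Cs K (al i (n - i)) (β ^ 2) ≠ 0 := h.ne
    field_simp
  rw [e2]
  have h4 : 0 < -Cs K (al i (n - i)) (β ^ 2) := by linarith
  positivity

lemma odd_ne (i : ℕ) (hi : i + 1 ≤ n) : yc β n (2 * i + 1) ≠ 0 := by
  rw [odd_y β hβ n K hK2 hK hX i hi]
  have h1 := neg_one_pow_ne β hβ n K hK2 hK hX i
  have hs : 0 < Sn K (al i (n - 1 - i)) (β ^ 2) := Sn_pos' β hβ n K hK2 hK hX _ _ (by omega)
  have hP : 0 < (n.factorial : ℝ) / (i.factorial * (n - 1 - i).factorial) := by positivity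
  exact mul_ne_zero (mul_ne_zero (mul_ne_zero h1 hP.ne') hβ.ne') hs.ne'

lemma odd_ratio (i : ℕ) (hi : i + 1 ≤ n) : ∃ P : ℝ, 0 < P ∧
    gc β n (2 * i + 1) / yc β n (2 * i + 1) = P * Cs K (al i (n - 1 - i)) (β ^ 2) := by
  rw [odd_y β hβ n K hK2 hK hX i hi, odd_g β hβ n K hK2 hK hX i hi]
  have h1 := neg_one_pow_ne β hβ n K hK2 hK hX i
  have hs : 0 < Sn K (al i (n - 1 - i)) (β ^ 2) := Sn_pos' β hβ n K hK2 hK hX _ _ (by omega)
  have hP : 0 < (n.factorial : ℝ) / (i.factorial * (n - 1 - i).factorial) := by positivity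
  have hc := choose_pos' β hβ n K hK2 hK hX (n - 1) i (by omega)
  refine ⟨((n - 1).choose i : ℝ) / ((n.factorial : ℝ) / (i.factorial * (n - 1 - i).factorial) * β *
    Sn K (al i (n - 1 - i)) (β ^ 2)), by positivity, ?_⟩
  set P := (n.factorial : ℝ) / (i.factorial * (n - 1 - i).factorial) with hPdef
  field_simp

end

/-- Three equally spaced positions. -/
lemma three_pos (m1 m2 m3 : ℂ) (y1 y2 y3 g1 g2 g3 j M : ℝ) (hM : M ≠ 0)
    (h1 : y1 ≠ 0) (h2 : y2 ≠ 0) (h3 : y3 ≠ 0)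
    (hu : g1 / y1 - 2 * (g2 / y2) + g3 / y3 ≠ 0)
    (e0 : m1 * y1 + m2 * y2 + m3 * y3 = 0)
    (e1 : m1 * (j * y1) + m2 * ((j + M) * y2) + m3 * ((j + 2 * M) * y3) = 0)
    (e2 : m1 * g1 + m2 * g2 + m3 * g3 = 0) : m1 = 0 ∧ m2 = 0 ∧ m3 = 0 := by
  have c1 : (y1 : ℂ) ≠ 0 := by exact_mod_cast h1
  have c2 : (y2 : ℂ) ≠ 0 := by exact_mod_cast h2
  have c3 : (y3 : ℂ) ≠ 0 := by exact_mod_cast h3
  have cM : (M : ℂ) ≠ 0 := by exact_mod_cast hM
  -- m2 y2 + 2 m3 y3 = 0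
  have a1 : m2 * y2 + 2 * (m3 * y3) = 0 := by
    have : (M : ℂ) * (m2 * y2 + 2 * (m3 * y3)) = 0 := by
      linear_combination e1 - (j : ℂ) * e0
    rcases mul_eq_zero.1 this with h | h
    · exact absurd h cM
    · exact h
  have a2 : m1 * y1 = m3 * y3 := by linear_combination e0 - a1
  have a3 : m2 * y2 = -2 * (m3 * y3) := by linear_combination a1
  have b1 : m1 = m3 * y3 / y1 := by rw [eq_div_iff c1]; exact a2
  have b2 : m2 = -2 * (m3 * y3) / y2 := by rw [eq_div_iff c2]; exact a3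
  have e3 : m3 * y3 * (((g1 / y1 - 2 * (g2 / y2) + g3 / y3 : ℝ)) : ℂ) = 0 := by
    push_cast
    rw [← e2, b1, b2]
    field_simp
    ring
  have hu' : (((g1 / y1 - 2 * (g2 / y2) + g3 / y3 : ℝ)) : ℂ) ≠ 0 := by exact_mod_cast hu
  have e4 : m3 * y3 = 0 := by
    rcases mul_eq_zero.1 e3 with h | h
    · exact h
    · exact absurd h hu'
  have e5 : m3 = 0 := by
    rcases mul_eq_zero.1 e4 with h | h
    · exact h
    · exact absurd h c3
  refine ⟨?_, ?_, e5⟩
  · rw [b1, e4, zero_div]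
  · rw [b2, e4, mul_zero, zero_div]

/-- Two positions. -/
lemma two_pos (m1 m2 : ℂ) (y1 y2 j M : ℝ) (hM : M ≠ 0) (h1 : y1 ≠ 0) (h2 : y2 ≠ 0)
    (e0 : m1 * y1 + m2 * y2 = 0)
    (e1 : m1 * (j * y1) + m2 * ((j + M) * y2) = 0) : m1 = 0 ∧ m2 = 0 := by
  have c1 : (y1 : ℂ) ≠ 0 := by exact_mod_cast h1
  have c2 : (y2 : ℂ) ≠ 0 := by exact_mod_cast h2
  have cM : (M : ℂ) ≠ 0 := by exact_mod_cast hM
  have a1 : m2 * y2 = 0 := by
    have : (M : ℂ) * (m2 * y2) = 0 := by linear_combination e1 - (j : ℂ) * e0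
    rcases mul_eq_zero.1 this with h | h
    · exact absurd h cM
    · exact h
  have a2 : m1 * y1 = 0 := by linear_combination e0 - a1
  constructor
  · rcases mul_eq_zero.1 a2 with h | h
    · exact h
    · exact absurd h c1
  · rcases mul_eq_zero.1 a1 with h | h
    · exact h
    · exact absurd h c2

lemma class_set (n M e : ℕ) (hM : 0 < M) (h3 : 2 * n < 3 * M) (he : e < M) :
    (range (2 * n + 1)).filter (fun J => J % M = e) =
      ({e, e + M, e + 2 * M} : Finset ℕ).filter (fun J => J ≤ 2 * n) := by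
  ext J
  simp only [Finset.mem_filter, Finset.mem_range, Finset.mem_insert, Finset.mem_singleton]
  constructor
  · rintro ⟨hJ, hm⟩
    have h1 := Nat.div_add_mod J M
    have h2 : J / M < 3 := by
      rw [Nat.div_lt_iff_lt_mul hM]; omega
    refine ⟨?_, by omega⟩
    generalize J / M = t at h1 h2
    have h4 : t = 0 ∨ t = 1 ∨ t = 2 := by omega
    rw [hm] at h1
    rcases h4 with h | h | h <;> subst h <;> omega
  · rintro ⟨hJ, hle⟩
    refine ⟨by omega, ?_⟩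
    rcases hJ with h | h | h
    · rw [h]; exact Nat.mod_eq_of_lt he
    · rw [h, Nat.add_mod_right]; exact Nat.mod_eq_of_lt he
    · rw [h, Nat.add_mul_mod_self_right]; exact Nat.mod_eq_of_lt he

lemma class_sum3 (n M e : ℕ) (hM : 0 < M) (h3 : 2 * n < 3 * M) (he : e < M) (h : e + 2 * M ≤ 2 * n)
    (F : ℕ → ℂ) : ∑ J ∈ (range (2 * n + 1)).filter (fun J => J % M = e), F J =
      F e + F (e + M) + F (e + 2 * M) := by
  rw [class_set n M e hM h3 he, Finset.filter_true_of_mem]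
  · rw [Finset.sum_insert, Finset.sum_insert, Finset.sum_singleton]
    · ring
    · simp only [Finset.mem_singleton]; omega
    · simp only [Finset.mem_insert, Finset.mem_singleton]; omega
  · intro J hJ
    simp only [Finset.mem_insert, Finset.mem_singleton] at hJ
    omega

lemma class_sum2 (n M e : ℕ) (hM : 0 < M) (h3 : 2 * n < 3 * M) (he : e < M) (h : 2 * n < e + 2 * M)
    (h' : e + M ≤ 2 * n)
    (F : ℕ → ℂ) : ∑ J ∈ (range (2 * n + 1)).filter (fun J => J % M = e), F J =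
      F e + F (e + M) := by
  rw [class_set n M e hM h3 he]
  have : ({e, e + M, e + 2 * M} : Finset ℕ).filter (fun J => J ≤ 2 * n) = {e, e + M} := by
    ext J
    simp only [Finset.mem_filter, Finset.mem_insert, Finset.mem_singleton]
    omega
  rw [this, Finset.sum_insert, Finset.sum_singleton]
  simp only [Finset.mem_singleton]; omega

end Pool.Agent.Helper559.Kn
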