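import Mathlib
import Pool.Agent.Helper559.Kn.Cls

set_option autoImplicit false
set_option linter.unusedSectionVars false

namespace Pool.Agent.Helper559.Kn

open Finset Polynomial

section
variable (j0 μ : ℕ) (hμ : j0 + 2 ≤ μ) (hμ2 : 5 * μ ≤ 8 * j0) (hj0 : 5 ≤ j0) (β : ℝ) (hβ : 0 < β)
  (n : ℕ) (hn : n = 2 * j0 + μ) (hX : β ^ 2 * ((n : ℝ) ^ 2 / 4) ≤ 5) (K : ℕ) (hK : n < K)
  (hroot : Cs K (al (j0 + μ) j0) (β ^ 2) = 0)
include hμ hμ2 hj0 hβ hn hX hK hroot

lemma cs_even_pos (i : ℕ) (hi : i ≤ n) (h : i < j0 ∨ j0 + μ < i) :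
    0 < Cs K (al i (n - i)) (β ^ 2) := by
  rcases h with h | h
  · rw [al_comm]
    exact T1 K (by omega) (j0 + μ) j0 μ n rfl hn hμ hj0 (β ^ 2) (by positivity) hX hroot
      (n - i) i (by omega) (by omega)
  · exact T1 K (by omega) (j0 + μ) j0 μ n rfl hn hμ hj0 (β ^ 2) (by positivity) hX hroot
      i (n - i) (by omega) h

lemma cs_even_neg (i : ℕ) (h : j0 < i) (h' : i < j0 + μ) :
    Cs K (al i (n - i)) (β ^ 2) < 0 :=
  T2 K (by omega) (j0 + μ) j0 μ n rfl hn hμ hj0 (β ^ 2) (by positivity) hX hroot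
      i (n - i) (by omega) h' (by omega)

lemma cs_odd_pos (i : ℕ) (hi : i + 1 ≤ n) (h : i < j0 ∨ j0 + μ ≤ i) :
    0 < Cs K (al i (n - 1 - i)) (β ^ 2) := by
  rcases h with h | h
  · rw [al_comm]
    exact T3 K (by omega) (j0 + μ) j0 μ n rfl hn hμ hj0 (β ^ 2) (by positivity) hX hroot
      (n - 1 - i) i (by omega) (by omega)
  · exact T3 K (by omega) (j0 + μ) j0 μ n rfl hn hμ hj0 (β ^ 2) (by positivity) hX hroot
      i (n - 1 - i) (by omega) h

lemma cs_odd_neg (i : ℕ) (h : μ ≤ i) (h' : i + μ + 1 ≤ n) :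
    Cs K (al i (n - 1 - i)) (β ^ 2) < 0 :=
  T4 K (by omega) (j0 + μ) j0 μ n rfl hn hμ hj0 (β ^ 2) (by positivity) hX hroot
      i (n - 1 - i) (by omega) h (by omega)

lemma y_ne (J : ℕ) (hJ : J ≤ 2 * n) (h1 : J ≠ 2 * j0) (h2 : J ≠ 2 * (j0 + μ)) : yc β n J ≠ 0 := by
  rcases Nat.even_or_odd' J with ⟨i, hi | hi⟩
  · subst hi
    have h3 : i ≤ n := by omega
    rcases Nat.lt_or_ge i j0 with h | h
    · exact (even_pos β hβ n K (by omega) hK hX i h3 (by omega)
        (cs_even_pos j0 μ hμ hμ2 hj0 β hβ n hn hX K hK hroot i h3 (Or.inl h))).1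
    · rcases Nat.lt_or_ge (j0 + μ) i with h' | h'
      · exact (even_pos β hβ n K (by omega) hK hX i h3 (by omega)
          (cs_even_pos j0 μ hμ hμ2 hj0 β hβ n hn hX K hK hroot i h3 (Or.inr h'))).1
      · exact (even_neg β hβ n K (by omega) hK hX i (by omega) (by omega)
          (cs_even_neg j0 μ hμ hμ2 hj0 β hβ n hn hX K hK hroot i (by omega) (by omega))).1
  · subst hi
    exact odd_ne β hβ n K (by omega) hK hX i (by omega)

lemma second_diff (e : ℕ) (he : e + 2 * (2 * μ) ≤ 2 * n) :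
    gc β n e / yc β n e - 2 * (gc β n (e + 2 * μ) / yc β n (e + 2 * μ)) +
      gc β n (e + 2 * (2 * μ)) / yc β n (e + 2 * (2 * μ)) ≠ 0 := by
  rcases Nat.even_or_odd' e with ⟨i, hi | hi⟩
  · subst hi
    have e1 : 2 * i + 2 * μ = 2 * (i + μ) := by ring
    have e2 : 2 * i + 2 * (2 * μ) = 2 * (i + 2 * μ) := by ring
    rw [e1, e2]
    have a1 := (even_pos β hβ n K (by omega) hK hX i (by omega) (by omega)
        (cs_even_pos j0 μ hμ hμ2 hj0 β hβ n hn hX K hK hroot i (by omega) (Or.inl (by omega)))).2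
    have a2 := (even_neg β hβ n K (by omega) hK hX (i + μ) (by omega) (by omega)
        (cs_even_neg j0 μ hμ hμ2 hj0 β hβ n hn hX K hK hroot (i + μ) (by omega) (by omega))).2
    have a3 := (even_pos β hβ n K (by omega) hK hX (i + 2 * μ) (by omega) (by omega)
        (cs_even_pos j0 μ hμ hμ2 hj0 β hβ n hn hX K hK hroot (i + 2 * μ) (by omega) (Or.inr (by omega)))).2
    intro h
    linarith
  · subst hi
    have e1 : 2 * i + 1 + 2 * μ = 2 * (i + μ) + 1 := by ring
    have e2 : 2 * i + 1 + 2 * (2 * μ) = 2 * (i + 2 * μ) + 1 := by ring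
    rw [e1, e2]
    obtain ⟨P1, hP1, r1⟩ := odd_ratio β hβ n K (by omega) hK hX i (by omega)
    obtain ⟨P2, hP2, r2⟩ := odd_ratio β hβ n K (by omega) hK hX (i + μ) (by omega)
    obtain ⟨P3, hP3, r3⟩ := odd_ratio β hβ n K (by omega) hK hX (i + 2 * μ) (by omega)
    have a1 := cs_odd_pos j0 μ hμ hμ2 hj0 β hβ n hn hX K hK hroot i (by omega) (Or.inl (by omega))
    have a2 := cs_odd_neg j0 μ hμ hμ2 hj0 β hβ n hn hX K hK hroot (i + μ) (by omega) (by omega)
    have a3 := cs_odd_pos j0 μ hμ hμ2 hj0 β hβ n hn hX K hK hroot (i + 2 * μ) (by omega) (Or.inr (by omega))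
    rw [r1, r2, r3]
    have b1 := mul_pos hP1 a1
    have b2 := mul_neg_of_pos_of_neg hP2 a2
    have b3 := mul_pos hP3 a3
    intro h
    linarith

theorem moments_zero (m : ℕ → ℂ)
    (H0 : ∀ e < 2 * μ, ∑ J ∈ (range (2 * n + 1)).filter (fun J => J % (2 * μ) = e), m J * (yc β n J : ℂ) = 0)
    (H1 : ∀ e < 2 * μ, ∑ J ∈ (range (2 * n + 1)).filter (fun J => J % (2 * μ) = e),
      m J * (((J : ℝ) * yc β n J : ℝ) : ℂ) = 0)
    (H2 : ∀ e < 2 * μ, ∑ J ∈ (range (2 * n + 1)).filter (fun J => J % (2 * μ) = e), m J * (gc β n J : ℂ) = 0)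
    (Hx : ∑ J ∈ range (2 * n + 1), m J * (((n - 1).choose J : ℕ) : ℂ) = 0) :
    ∀ J ≤ 2 * n, m J = 0 := by
  have hM : 0 < 2 * μ := by omega
  have h3M : 2 * n < 3 * (2 * μ) := by omega
  have hMr : ((2 * μ : ℕ) : ℝ) ≠ 0 := by positivity
  -- all classes except the special one
  have key : ∀ e < 2 * μ, e ≠ 2 * j0 → ∀ J ≤ 2 * n, J % (2 * μ) = e → m J = 0 := by
    intro e he hne J hJ hJe
    have hJmem : J ∈ (range (2 * n + 1)).filter (fun J => J % (2 * μ) = e) := by
      rw [Finset.mem_filter, Finset.mem_range]; exact ⟨by omega, hJe⟩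
    rw [class_set n (2 * μ) e hM h3M he] at hJmem
    simp only [Finset.mem_filter, Finset.mem_insert, Finset.mem_singleton] at hJmem
    have E0 := H0 e he
    have E1 := H1 e he
    have E2 := H2 e he
    rcases Nat.lt_or_ge (2 * n) (e + 2 * (2 * μ)) with h | h
    · -- two positions
      rw [class_sum2 n (2 * μ) e hM h3M he h (by omega)] at E0 E1
      have y1 := y_ne j0 μ hμ hμ2 hj0 β hβ n hn hX K hK hroot e (by omega) hne (by omega)
      have y2 := y_ne j0 μ hμ hμ2 hj0 β hβ n hn hX K hK hroot (e + 2 * μ) (by omega) (by omega) (by omega)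
      have hh := two_pos (m e) (m (e + 2 * μ)) (yc β n e) (yc β n (e + 2 * μ)) (e : ℝ) ((2 * μ : ℕ) : ℝ)
        hMr y1 y2 E0 (by
          push_cast at E1 ⊢
          exact E1)
      rcases hJmem.1 with h' | h' | h'
      · rw [h']; exact hh.1
      · rw [h']; exact hh.2
      · omega
    · rw [class_sum3 n (2 * μ) e hM h3M he h] at E0 E1 E2
      have y1 := y_ne j0 μ hμ hμ2 hj0 β hβ n hn hX K hK hroot e (by omega) hne (by omega)
      have y2 := y_ne j0 μ hμ hμ2 hj0 β hβ n hn hX K hK hroot (e + 2 * μ) (by omega) (by omega) (by omega)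
      have y3 := y_ne j0 μ hμ hμ2 hj0 β hβ n hn hX K hK hroot (e + 2 * (2 * μ)) (by omega) (by omega) (by omega)
      have hh := three_pos (m e) (m (e + 2 * μ)) (m (e + 2 * (2 * μ))) (yc β n e) (yc β n (e + 2 * μ))
        (yc β n (e + 2 * (2 * μ))) (gc β n e) (gc β n (e + 2 * μ)) (gc β n (e + 2 * (2 * μ)))
        (e : ℝ) ((2 * μ : ℕ) : ℝ) hMr y1 y2 y3
        (second_diff j0 μ hμ hμ2 hj0 β hβ n hn hX K hK hroot e h) E0 (by
          push_cast at E1 ⊢
          exact E1) E2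
      rcases hJmem.1 with h' | h' | h'
      · rw [h']; exact hh.1
      · rw [h']; exact hh.2.1
      · rw [h']; exact hh.2.2
  -- the special class
  have hspec : ∀ J ≤ 2 * n, J ≠ 2 * j0 → J ≠ 2 * (j0 + μ) → m J = 0 := by
    intro J hJ h1 h2
    by_cases hc : J % (2 * μ) = 2 * j0
    · exfalso
      have hJmem : J ∈ (range (2 * n + 1)).filter (fun J => J % (2 * μ) = 2 * j0) := by
        rw [Finset.mem_filter, Finset.mem_range]; exact ⟨by omega, hc⟩
      rw [class_set n (2 * μ) (2 * j0) hM h3M (by omega)] at hJmem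
      simp only [Finset.mem_filter, Finset.mem_insert, Finset.mem_singleton] at hJmem
      omega
    · exact key (J % (2 * μ)) (Nat.mod_lt _ hM) hc J hJ rfl
  have hm1 : m (2 * j0) = 0 := by
    rw [Finset.sum_eq_single_of_mem (2 * j0) (by rw [Finset.mem_range]; omega)] at Hx
    · have hc : (((n - 1).choose (2 * j0) : ℕ) : ℂ) ≠ 0 := by
        have : 0 < (n - 1).choose (2 * j0) := Nat.choose_pos (by omega)
        exact_mod_cast this.ne'
      rcases mul_eq_zero.1 Hx with h | h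
      · exact h
      · exact absurd h hc
    · intro J hJ hne
      rw [Finset.mem_range] at hJ
      by_cases h2 : J = 2 * (j0 + μ)
      · rw [Nat.choose_eq_zero_of_lt (by omega)]; simp
      · rw [hspec J (by omega) hne h2, zero_mul]
  have hm2 : m (2 * (j0 + μ)) = 0 := by
    have E2 := H2 (2 * j0) (by omega)
    rw [class_sum2 n (2 * μ) (2 * j0) hM h3M (by omega) (by omega) (by omega), hm1, zero_mul, zero_add,
      show 2 * j0 + 2 * μ = 2 * (j0 + μ) by ring] at E2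
    have hg : gc β n (2 * (j0 + μ)) ≠ 0 := by
      rw [even_g β hβ n K (by omega) hK hX (j0 + μ) (by omega) (by omega)]
      have h1 := neg_one_pow_ne β hβ n K (by omega) hK hX (j0 + μ - 1)
      have hs : 0 < Sn K (al (j0 + μ - 1) (n - 1 - (j0 + μ))) (β ^ 2) :=
        Sn_pos' β hβ n K (by omega) hK hX _ _ (by omega)
      have hP : 0 < ((n - 1).factorial : ℝ) / ((j0 + μ - 1).factorial * (n - 1 - (j0 + μ)).factorial) := by
        positivity
      exact mul_ne_zero (mul_ne_zero (mul_ne_zero h1 hP.ne') hβ.ne') hs.ne'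
    rcases mul_eq_zero.1 E2 with h | h
    · exact h
    · exact absurd h (by exact_mod_cast hg)
  intro J hJ
  by_cases h1 : J = 2 * j0
  · rw [h1]; exact hm1
  by_cases h2 : J = 2 * (j0 + μ)
  · rw [h2]; exact hm2
  exact hspec J hJ h1 h2

lemma y_special : yc β n (2 * j0) = 0 ∧ yc β n (2 * (j0 + μ)) = 0 := by
  constructor
  · rw [even_y β hβ n K (by omega) hK hX j0 (by omega), show n - j0 = j0 + μ by omega, al_comm, hroot,
      mul_zero]
  · rw [even_y β hβ n K (by omega) hK hX (j0 + μ) (by omega), show n - (j0 + μ) = j0 by omega, hroot,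
      mul_zero]

end

end Pool.Agent.Helper559.Kn
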