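import Mathlib
import Pool.Agent.Helper559.Kn.Mom
import Pool.Agent.Helper559.Kn.Ift

set_option autoImplicit false
set_option linter.unusedSectionVars false

namespace Pool.Agent.Helper559.Kn

open Finset Polynomial

lemma geom_root (M : ℕ) (ω : ℂ) (hω : IsPrimitiveRoot ω M) (k : ℕ) :
    ∑ ν ∈ range M, (ω ^ k) ^ ν = if M ∣ k then (M : ℂ) else 0 := by
  split_ifs with h
  · rw [(hω.pow_eq_one_iff_dvd k).2 h]; simp
  · have hne : ω ^ k ≠ 1 := fun h' => h ((hω.pow_eq_one_iff_dvd k).1 h')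
    rw [geom_sum_eq hne, ← pow_mul, mul_comm, pow_mul, hω.pow_eq_one, one_pow, sub_self, zero_div]

lemma dvd_iff_mod (M e J : ℕ) (he : e < M) : M ∣ J + (M - e) ↔ J % M = e := by
  constructor
  · intro h
    have h1 := Nat.div_add_mod J M
    have h2 := Nat.mod_lt J (show 0 < M by omega)
    have h3 : M ∣ J % M + (M - e) := by
      have e1 : J + (M - e) = M * (J / M) + (J % M + (M - e)) := by omega
      rw [e1] at h
      exact (Nat.dvd_add_right (dvd_mul_right _ _)).1 h
    obtain ⟨t, ht⟩ := h3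
    have ht1 : t = 1 := by
      have a1 : 0 < J % M + (M - e) := by omega
      have a2 : J % M + (M - e) < M * 2 := by omega
      rw [ht] at a1 a2
      have b1 : 0 < t := Nat.pos_of_mul_pos_left a1 |> fun h => by
        rcases Nat.eq_zero_or_pos t with h0 | h0
        · subst h0; omega
        · exact h0
      have b2 : t < 2 := Nat.lt_of_mul_lt_mul_left a2
      omega
    rw [ht1, mul_one] at ht
    omega
  · intro h
    have h1 := Nat.div_add_mod J M
    refine ⟨J / M + 1, ?_⟩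
    rw [mul_add, mul_one]
    omega

/-- Averaging over roots of unity isolates a residue class. -/
lemma avg_class (M : ℕ) (ω : ℂ) (hω : IsPrimitiveRoot ω M) (N e : ℕ) (he : e < M)
    (a : ℕ → ℂ) : ∑ ν ∈ range M, (ω ^ ν) ^ (M - e) * ∑ J ∈ range N, a J * (ω ^ ν) ^ J =
      (M : ℂ) * ∑ J ∈ (range N).filter (fun J => J % M = e), a J := by
  have h1 : ∀ ν ∈ range M, (ω ^ ν) ^ (M - e) * ∑ J ∈ range N, a J * (ω ^ ν) ^ J =
      ∑ J ∈ range N, a J * (ω ^ (J + (M - e))) ^ ν := by
    intro ν _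
    rw [Finset.mul_sum]
    apply Finset.sum_congr rfl
    intro J _
    rw [← pow_mul, ← pow_mul, ← pow_mul]
    calc ω ^ (ν * (M - e)) * (a J * ω ^ (ν * J)) = a J * (ω ^ (ν * (M - e)) * ω ^ (ν * J)) := by ring
      _ = a J * ω ^ ((J + (M - e)) * ν) := by rw [← pow_add]; congr 2; ring
  rw [Finset.sum_congr rfl h1, Finset.sum_comm, Finset.mul_sum, Finset.sum_filter]
  apply Finset.sum_congr rfl
  intro J _
  rw [← Finset.mul_sum, geom_root M ω hω]
  by_cases h : J % M = e
  · rw [if_pos ((dvd_iff_mod M e J he).2 h), if_pos h]; ring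
  · rw [if_neg (fun h' => h ((dvd_iff_mod M e J he).1 h')), if_neg h]; ring

lemma dft (M : ℕ) (ω : ℂ) (hω : IsPrimitiveRoot ω M) (N : ℕ) (P : ℝ[X]) (hP : P.natDegree < N)
    (c : Fin N → ℂ) (h : ∀ ν < M, ∑ l, c l * aeval (ω ^ ν * ((l : ℕ) : ℂ)) P = 0) (e : ℕ) (he : e < M) :
    ∑ J ∈ (range N).filter (fun J => J % M = e), (∑ l, c l * ((l : ℕ) : ℂ) ^ J) * (P.coeff J : ℂ) = 0 := by
  have hM : (M : ℂ) ≠ 0 := by
    have : M ≠ 0 := by omega
    exact_mod_cast this
  have h1 := avg_class M ω hω N e he (fun J => (∑ l, c l * ((l : ℕ) : ℂ) ^ J) * (P.coeff J : ℂ))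
  have h2 : ∀ ν ∈ range M, ∑ J ∈ range N, (∑ l, c l * ((l : ℕ) : ℂ) ^ J) * (P.coeff J : ℂ) * (ω ^ ν) ^ J = 0 := by
    intro ν hν
    rw [Finset.mem_range] at hν
    rw [← h ν hν]
    simp_rw [aeval_eq_sum_range' hP, Finset.mul_sum, Finset.sum_mul]
    rw [Finset.sum_comm]
    apply Finset.sum_congr rfl
    intro l _
    apply Finset.sum_congr rfl
    intro J _
    rw [mul_pow, Complex.real_smul]
    ring
  rw [Finset.sum_eq_zero] at h1
  · rcases mul_eq_zero.1 h1.symm with h' | h'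
    · exact absurd h' hM
    · exact h'
  · intro ν hν
    rw [h2 ν hν, mul_zero]

section
variable (j0 μ : ℕ) (hμ : j0 + 2 ≤ μ) (hμ2 : 5 * μ ≤ 8 * j0) (hj0 : 5 ≤ j0) (β : ℝ) (hβ : 0 < β)
  (n : ℕ) (hn : n = 2 * j0 + μ) (hX : β ^ 2 * ((n : ℝ) ^ 2 / 4) ≤ 5) (K : ℕ) (hK : n < K)
  (hroot : Cs K (al (j0 + μ) j0) (β ^ 2) = 0)

lemma natDegree_fb_pow (β : ℝ) (n : ℕ) : ((fb β) ^ n).natDegree ≤ 2 * n := by
  refine natDegree_pow_le.trans ?_
  have := fb_natDegree_le β
  nlinarith

include hμ hμ2 hj0 hβ hn hX hK hroot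

lemma base_relation (ω : ℂ) (hω : IsPrimitiveRoot ω (2 * μ)) (z : ℂ) :
    ∑ ν ∈ range (2 * μ), (ω ^ ν) ^ (2 * μ - 2 * j0) * aeval (ω ^ ν * z) ((fb β) ^ n) = 0 := by
  have h1 := avg_class (2 * μ) ω hω (2 * n + 1) (2 * j0) (by omega) (fun J => (yc β n J : ℂ) * z ^ J)
  have h2 : ∀ ν ∈ range (2 * μ), (ω ^ ν) ^ (2 * μ - 2 * j0) * aeval (ω ^ ν * z) ((fb β) ^ n) =
      (ω ^ ν) ^ (2 * μ - 2 * j0) * ∑ J ∈ range (2 * n + 1), (yc β n J : ℂ) * z ^ J * (ω ^ ν) ^ J := by
    intro ν _
    congr 1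
    rw [aeval_eq_sum_range' (show ((fb β) ^ n).natDegree < 2 * n + 1 by
      have := natDegree_fb_pow β n; omega)]
    apply Finset.sum_congr rfl
    intro J _
    rw [mul_pow, Complex.real_smul]
    show ((yc β n J : ℝ) : ℂ) * _ = _
    ring
  rw [Finset.sum_congr rfl h2, h1, class_sum2 n (2 * μ) (2 * j0) (by omega) (by omega) (by omega)
    (by omega) (by omega)]
  have hy := y_special j0 μ hμ hμ2 hj0 β hβ n hn hX K hK hroot
  rw [show 2 * j0 + 2 * μ = 2 * (j0 + μ) by ring, hy.1, hy.2]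
  simp

theorem exists_rep : ∃ p : (Fin (2 * μ) ⊕ Fin 2) → Fin 3 → ℂ, ∀ z : ℂ, ∑ i, (ev (p i) z) ^ n = z := by
  have hn1 : 1 ≤ n := by omega
  have hnC : (n : ℂ) ≠ 0 := by
    have : n ≠ 0 := by omega
    exact_mod_cast this
  have hM0 : 2 * μ ≠ 0 := by omega
  set ω : ℂ := Complex.exp (2 * Real.pi * Complex.I / (2 * μ : ℕ)) with hωdef
  have hω : IsPrimitiveRoot ω (2 * μ) := Complex.isPrimitiveRoot_exp (2 * μ) hM0
  have hω0 : ω ≠ 0 := hω.ne_zero hM0
  -- n-th roots of the weights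
  choose ζ hζ using fun ν : Fin (2 * μ) =>
    IsAlgClosed.exists_pow_nat_eq ((ω ^ (ν : ℕ)) ^ (2 * μ - 2 * j0)) (show 0 < n by omega)
  obtain ⟨η, hη⟩ := IsAlgClosed.exists_pow_nat_eq (-1 : ℂ) (show 0 < n by omega)
  have hζ0 : ∀ ν, ζ ν ≠ 0 := by
    intro ν h
    have := hζ ν
    rw [h, zero_pow (by omega)] at this
    exact pow_ne_zero _ (pow_ne_zero _ hω0) this.symm
  set p0 : (Fin (2 * μ) ⊕ Fin 2) → Fin 3 → ℂ := Sum.elim
    (fun ν => ![ζ ν, ζ ν * (β * ω ^ (ν : ℕ)), -(ζ ν * (ω ^ (ν : ℕ)) ^ 2)])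
    (fun s => if s = 0 then ![1, 1, 0] else ![η, η, 0]) with hp0
  have haev : ∀ w : ℂ, aeval w (fb β) = 1 + β * w - w ^ 2 := by
    intro w
    simp [fb]
    ring
  have hev1 : ∀ (ν : Fin (2 * μ)) (z : ℂ), ev (p0 (Sum.inl ν)) z = ζ ν * aeval (ω ^ (ν : ℕ) * z) (fb β) := by
    intro ν z
    rw [haev]
    simp only [hp0, Sum.elim_inl, ev, Matrix.cons_val_zero, Matrix.cons_val_one, Matrix.cons_val]
    ring
  have hev2 : ∀ z : ℂ, ev (p0 (Sum.inr 0)) z = 1 + z := by
    intro z
    simp [hp0, ev]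
  have hev3 : ∀ z : ℂ, ev (p0 (Sum.inr 1)) z = η * (1 + z) := by
    intro z
    simp [hp0, ev]
    ring
  apply open_lemma n hn1 p0
  · intro z
    rw [Fintype.sum_sum_type, Fin.sum_univ_two, hev2, hev3, mul_pow, hη]
    have h1 : ∑ ν : Fin (2 * μ), ev (p0 (Sum.inl ν)) z ^ n =
        ∑ ν ∈ range (2 * μ), (ω ^ ν) ^ (2 * μ - 2 * j0) * aeval (ω ^ ν * z) ((fb β) ^ n) := by
      rw [← Fin.sum_univ_eq_sum_range
        (fun ν => (ω ^ ν) ^ (2 * μ - 2 * j0) * aeval (ω ^ ν * z) ((fb β) ^ n))]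
      apply Finset.sum_congr rfl
      intro ν _
      rw [hev1, mul_pow, hζ, map_pow]
    rw [h1, base_relation j0 μ hμ hμ2 hj0 β hβ n hn hX K hK hroot ω hω z]
    ring
  · intro c hc
    -- relations from the main block
    have hrel : ∀ (Q : ℝ[X]) (q0 q1 q2 : ℂ), (∀ w : ℂ, aeval w Q = (q0 + q1 * w + q2 * w ^ 2) * (aeval w (fb β)) ^ (n - 1)) →
        ∀ ν < 2 * μ, ∑ l, c l * aeval (ω ^ ν * ((l : ℕ) : ℂ)) Q = 0 := by
      intro Q q0 q1 q2 hQ ν hν
      have h1 := hc (Sum.inl ⟨ν, hν⟩) ![q0, q1 * ω ^ ν, q2 * (ω ^ ν) ^ 2]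
      have h2 : ∑ l : Fin (2 * n + 1), c l * (ev (p0 (Sum.inl ⟨ν, hν⟩)) ((l : ℕ) : ℂ) ^ (n - 1) *
          ev ![q0, q1 * ω ^ ν, q2 * (ω ^ ν) ^ 2] ((l : ℕ) : ℂ)) =
          (ζ ⟨ν, hν⟩) ^ (n - 1) * ∑ l, c l * aeval (ω ^ ν * ((l : ℕ) : ℂ)) Q := by
        rw [Finset.mul_sum]
        apply Finset.sum_congr rfl
        intro l _
        rw [hev1, mul_pow, hQ]
        simp only [ev, Matrix.cons_val_zero, Matrix.cons_val_one, Matrix.cons_val]
        ring
      rw [h2] at h1
      rcases mul_eq_zero.1 h1 with h | h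
      · exact absurd h (pow_ne_zero _ (hζ0 _))
      · exact h
    set m : ℕ → ℂ := fun J => ∑ l, c l * ((l : ℕ) : ℂ) ^ J with hm
    have hmom : ∀ J ≤ 2 * n, m J = 0 := by
      apply moments_zero j0 μ hμ hμ2 hj0 β hβ n hn hX K hK hroot m
      · -- Q = f^n
        intro e he
        apply dft (2 * μ) ω hω (2 * n + 1) ((fb β) ^ n) (by have := natDegree_fb_pow β n; omega) c _ e he
        apply hrel ((fb β) ^ n) 1 β (-1)
        intro w
        have e1 : (1 + (β : ℂ) * w + -1 * w ^ 2) = aeval w (fb β) := by rw [haev]; ring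
        rw [e1, map_pow]
        obtain ⟨t, rfl⟩ : ∃ t, n = t + 1 := ⟨n - 1, by omega⟩
        rw [Nat.add_sub_cancel, pow_succ]; ring
      · -- Q = X * (f^n)'
        intro e he
        have h1 := dft (2 * μ) ω hω (2 * n + 1) (X * derivative ((fb β) ^ n)) (by
          have h2 := natDegree_fb_pow β n
          have h3 : (derivative ((fb β) ^ n)).natDegree ≤ 2 * n - 1 :=
            (natDegree_derivative_le _).trans (by omega)
          have h4 : (X * derivative ((fb β) ^ n)).natDegree ≤ 1 + (2 * n - 1) := by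
            refine natDegree_mul_le.trans ?_
            rw [natDegree_X]; omega
          omega) c (by
          apply hrel (X * derivative ((fb β) ^ n)) 0 (n * β) (-2 * n)
          intro w
          rw [derivative_pow]
          simp only [map_mul, aeval_X, map_natCast, map_pow, aeval_C]
          have e1 : aeval w (derivative (fb β)) = (β : ℂ) - 2 * w := by
            simp [fb]
            ring
          rw [e1]
          push_cast
          ring) e he
        rw [← h1]
        apply Finset.sum_congr rfl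
        intro J _
        congr 1
        have : (X * derivative ((fb β) ^ n)).coeff J = (J : ℝ) * yc β n J := by
          rcases J with _ | J
          · simp
          · rw [coeff_X_mul, coeff_derivative, yc]
            push_cast; ring
        rw [this]
      · -- Q = X f^(n-1)
        intro e he
        apply dft (2 * μ) ω hω (2 * n + 1) (X * (fb β) ^ (n - 1)) (by
          have h2 := natDegree_fb_pow β (n - 1)
          have h4 : (X * (fb β) ^ (n - 1)).natDegree ≤ 1 + (2 * (n - 1)) := by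
            refine natDegree_mul_le.trans ?_
            rw [natDegree_X]; omega
          omega) c _ e he
        apply hrel (X * (fb β) ^ (n - 1)) 0 1 0
        intro w
        simp only [map_mul, aeval_X, map_pow]
        ring
      · have h1 := hc (Sum.inr 0) ![1, 0, 0]
        rw [← h1]
        have h2 : ∀ l : Fin (2 * n + 1), ev (p0 (Sum.inr 0)) ((l : ℕ) : ℂ) ^ (n - 1) *
            ev ![1, 0, 0] ((l : ℕ) : ℂ) = ∑ J ∈ range (2 * n + 1), (((n - 1).choose J : ℕ) : ℂ) * ((l : ℕ) : ℂ) ^ J := by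
          intro l
          rw [hev2]
          have : ev ![1, 0, 0] ((l : ℕ) : ℂ) = 1 := by simp [ev]
          rw [this, mul_one, add_comm, add_pow]
          rw [← Finset.sum_subset (Finset.range_subset_range.2 (show n - 1 + 1 ≤ 2 * n + 1 by omega))]
          · apply Finset.sum_congr rfl
            intro J _
            rw [one_pow]; ring
          · intro J _ hJ
            rw [Finset.mem_range, not_lt] at hJ
            rw [Nat.choose_eq_zero_of_lt (by omega)]; simp
        simp_rw [h2, hm, Finset.mul_sum, Finset.sum_mul]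
        rw [Finset.sum_comm]
        apply Finset.sum_congr rfl
        intro l _
        apply Finset.sum_congr rfl
        intro J _
        ring
    -- Lagrange interpolation
    funext l0
    set s : Finset (Fin (2 * n + 1)) := Finset.univ
    set v : Fin (2 * n + 1) → ℂ := fun l => ((l : ℕ) : ℂ) with hv
    have hvinj : Set.InjOn v s := by
      intro a _ b _ hab
      have : ((a : ℕ) : ℂ) = ((b : ℕ) : ℂ) := hab
      exact Fin.ext (by exact_mod_cast this)
    set L := Lagrange.basis s v l0 with hL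
    have hdeg : L.natDegree < 2 * n + 1 := by
      have h1 : L.degree = ((s.card - 1 : ℕ) : WithBot ℕ) := Lagrange.degree_basis hvinj (Finset.mem_univ _)
      have h2 := natDegree_eq_of_degree_eq_some h1
      rw [h2, Finset.card_univ, Fintype.card_fin]
      omega
    have h1 : ∑ l, c l * L.eval (v l) = 0 := by
      simp_rw [eval_eq_sum_range' hdeg, Finset.mul_sum]
      rw [Finset.sum_comm]
      apply Finset.sum_eq_zero
      intro J hJ
      rw [Finset.mem_range] at hJ
      have h2 := hmom J (by omega)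
      calc ∑ l, c l * (L.coeff J * v l ^ J) = L.coeff J * m J := by
            rw [hm, Finset.mul_sum]
            apply Finset.sum_congr rfl
            intro l _
            simp only [hv]
            ring
        _ = 0 := by rw [h2, mul_zero]
    rw [Finset.sum_eq_single l0] at h1
    · rw [hL, Lagrange.eval_basis_self hvinj (Finset.mem_univ _), mul_one] at h1
      exact h1
    · intro l _ hl
      rw [hL, Lagrange.eval_basis_of_ne hl.symm (Finset.mem_univ _), mul_zero]
    · intro h; exact absurd (Finset.mem_univ _) h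

end

end Pool.Agent.Helper559.Kn
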